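import Mathlib

/-!
Codes without unbounded search: their functions are total, and every primitive recursive function
has such a code.
-/

namespace Pool.Agent.LibComp86

open Nat.Partrec Encodable Denumerable

/-- codes without unbounded search -/
def isPR (c : Code) : Bool :=
  Nat.Partrec.Code.recOn c true true true true (fun _ _ a b => a && b) (fun _ _ a b => a && b)
    (fun _ _ a b => a && b) (fun _ _ => false)

lemma primrec_isPR : Primrec isPR := by
  have h : Primrec fun c : Code => isPR c := by
    have hand' : Primrec fun a : Code × Code × Code × Bool × Bool => (a.2.2.2.1 && a.2.2.2.2) :=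
      Primrec.and.comp (Primrec.fst.comp (Primrec.snd.comp (Primrec.snd.comp Primrec.snd)))
        (Primrec.snd.comp (Primrec.snd.comp (Primrec.snd.comp Primrec.snd)))
    exact Nat.Partrec.Code.primrec_recOn (c := fun c : Code => c) Primrec.id
      (z := fun _ => true) (Primrec.const true) (s := fun _ => true) (Primrec.const true)
      (l := fun _ => true) (Primrec.const true) (r := fun _ => true) (Primrec.const true)
      (pr := fun _ _ _ a b => a && b) hand' (co := fun _ _ _ a b => a && b) hand'
      (pc := fun _ _ _ a b => a && b) hand' (rf := fun _ _ _ => false) (Primrec.const false)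
  exact h

lemma isPR_total {c : Code} (h : isPR c = true) (n : ℕ) : (c.eval n).Dom := by
  induction c generalizing n with
  | zero => exact trivial
  | succ => exact trivial
  | left => exact trivial
  | right => exact trivial
  | pair cf cg hf hg =>
    have h' : (isPR cf && isPR cg) = true := h
    rw [Bool.and_eq_true] at h'
    have h1 := hf h'.1 n
    have h2 := hg h'.2 n
    obtain ⟨a, ha⟩ := Part.dom_iff_mem.1 h1
    obtain ⟨b, hb⟩ := Part.dom_iff_mem.1 h2
    rw [Part.dom_iff_mem]
    refine ⟨Nat.pair a b, ?_⟩
    rw [Code.eval]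
    simp only [Seq.seq, Part.map_eq_map, Part.mem_bind_iff, Part.mem_map_iff]
    exact ⟨_, ⟨a, ha, rfl⟩, b, hb, rfl⟩
  | comp cf cg hf hg =>
    have h' : (isPR cf && isPR cg) = true := h
    rw [Bool.and_eq_true] at h'
    obtain ⟨b, hb⟩ := Part.dom_iff_mem.1 (hg h'.2 n)
    obtain ⟨a, ha⟩ := Part.dom_iff_mem.1 (hf h'.1 b)
    rw [Part.dom_iff_mem]
    refine ⟨a, ?_⟩
    rw [Code.eval]
    exact Part.mem_bind hb ha
  | prec cf cg hf hg =>
    have h' : (isPR cf && isPR cg) = true := h
    rw [Bool.and_eq_true] at h'
    have key : ∀ a k, ((Code.prec cf cg).eval (Nat.pair a k)).Dom := by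
      intro a k
      induction k with
      | zero => rw [Code.eval_prec_zero]; exact hf h'.1 a
      | succ k ih =>
        rw [Code.eval_prec_succ, Part.dom_iff_mem]
        obtain ⟨i, hi⟩ := Part.dom_iff_mem.1 ih
        obtain ⟨j, hj⟩ := Part.dom_iff_mem.1 (hg h'.2 (Nat.pair a (Nat.pair k i)))
        exact ⟨j, Part.mem_bind hi hj⟩
    have := key n.unpair.1 n.unpair.2
    rwa [Nat.pair_unpair] at this
  | rfind' cf _ => exact absurd h (by simp [isPR])

lemma exists_isPR {f : ℕ → ℕ} (hf : Nat.Primrec f) :
    ∃ c : Code, isPR c = true ∧ ∀ n, f n ∈ c.eval n := by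
  induction hf with
  | zero => exact ⟨Code.zero, rfl, fun n => Part.mem_some _⟩
  | succ => exact ⟨Code.succ, rfl, fun n => Part.mem_some _⟩
  | left => exact ⟨Code.left, rfl, fun n => Part.mem_some _⟩
  | right => exact ⟨Code.right, rfl, fun n => Part.mem_some _⟩
  | pair _ _ hf hg =>
    obtain ⟨c, h1, h2⟩ := hf
    obtain ⟨d, h3, h4⟩ := hg
    refine ⟨Code.pair c d, ?_, fun n => ?_⟩
    · show (isPR c && isPR d) = true
      rw [h1, h3]; rfl
    · rw [Code.eval]
      simp only [Seq.seq, Part.map_eq_map, Part.mem_bind_iff, Part.mem_map_iff]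
      exact ⟨_, ⟨_, h2 n, rfl⟩, _, h4 n, rfl⟩
  | comp _ _ hf hg =>
    obtain ⟨c, h1, h2⟩ := hf
    obtain ⟨d, h3, h4⟩ := hg
    refine ⟨Code.comp c d, ?_, fun n => ?_⟩
    · show (isPR c && isPR d) = true
      rw [h1, h3]; rfl
    · rw [Code.eval]
      exact Part.mem_bind (h4 n) (h2 _)
  | @prec f g _ _ hf hg =>
    obtain ⟨c, h1, h2⟩ := hf
    obtain ⟨d, h3, h4⟩ := hg
    refine ⟨Code.prec c d, ?_, fun n => ?_⟩
    · show (isPR c && isPR d) = true
      rw [h1, h3]; rfl
    · have key : ∀ a k, (Nat.rec (f a) (fun y IH => g (Nat.pair a (Nat.pair y IH))) k : ℕ) ∈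
          (Code.prec c d).eval (Nat.pair a k) := by
        intro a k
        induction k with
        | zero => rw [Code.eval_prec_zero]; exact h2 a
        | succ k ih =>
          rw [Code.eval_prec_succ]
          exact Part.mem_bind ih (h4 _)
      have := key n.unpair.1 n.unpair.2
      rw [Nat.pair_unpair] at this
      exact this

/-- a primitive recursive function on coded types has a code without unbounded search -/
lemma exists_isPR_fun {α β : Type} [Primcodable α] [Primcodable β] {f : α → β}
    (hf : Primrec f) : ∃ c : Code, isPR c = true ∧ ∀ a, encode (f a) ∈ c.eval (encode a) := by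
  have h : Nat.Primrec fun n => (encode ((decode (α := α) n).map f)).pred := by
    have h0 : Nat.Primrec fun n => encode ((decode (α := α) n).map f) := hf
    exact Nat.Primrec.pred.comp h0
  obtain ⟨c, h1, h2⟩ := exists_isPR h
  refine ⟨c, h1, fun a => ?_⟩
  have := h2 (encode a)
  rw [encodek, Option.map_some, encode_some, Nat.succ_eq_add_one, Nat.pred_eq_sub_one,
    Nat.add_sub_cancel] at this
  exact this

end Pool.Agent.LibComp86
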