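import Mathlib
import Pool.Agent.LibRandTT.Check
import Pool.Agent.LibComp86.Pr

/-!
The decidable predicate recognising winning tables of the builder, with roles fixed in advance,
and its primitive recursiveness.
-/

namespace Pool.Agent.LibComp86

open Nat.Partrec Encodable Denumerable Pool.Agent.LibRandTT

/-- decoded list of queries -/
def dq (r : ℕ) : List (List Bool) := (decode (α := List (List Bool)) r).getD []

/-- decoded bit -/
def db (r : ℕ) : Bool := (decode (α := Bool) r).getD false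

@[simp] lemma dq_encode (q : List (List Bool)) : dq (encode q) = q := by
  unfold dq; rw [encodek]; rfl

@[simp] lemma db_encode (b : Bool) : db (encode b) = b := by
  unfold db; rw [encodek]; rfl

lemma primrec_dq : Primrec dq := Primrec.option_getD.comp Primrec.decode (Primrec.const [])

lemma primrec_db : Primrec db := Primrec.option_getD.comp Primrec.decode (Primrec.const false)

/-- bounded evaluation of requirement `e` -/
def Fev2 (K e s : ℕ) (x : List Bool) (V A : ℕ) : Option Bool :=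
  (Code.evaln s (cq e) (encode x)).bind fun r =>
    (Code.evaln s (cg e) (encode (x, ansv K V A (dq r)))).map fun r' => db r'

/-- condition on a single builder position -/
def good2 (a0 a1 e s H : ℕ) (t : ℕ × ℕ) : Prop :=
  (∀ i < t.2, t.2.testBit i = true → 2 ^ (a0 + 1) ≤ i ∧ i < 2 ^ (a1 + 1)) ∧
  (∀ m < a1 + 1, 4 * cnt t.2 m ≤ 2 ^ m) ∧
  ∃ i < 2 ^ (4 * a0 + 1), 2 ^ (4 * a0) ≤ i ∧
    Fev2 (2 ^ (a1 + 1)) e s (str i) t.1 t.2 = some (!(H.testBit i))

/-- winning table for the roles `H` -/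
def check2 (a0 a1 e s H : ℕ) (T : List (ℕ × ℕ)) : Prop :=
  (∀ t ∈ T, good2 a0 a1 e s H t) ∧
  (∀ V < 2 ^ 2 ^ (a1 + 1), legal a0 a1 V → ∃ t ∈ T, t.1 = V) ∧
  (∀ t ∈ T, ∀ V < 2 ^ 2 ^ (a1 + 1), sub t.1 V → legal a0 a1 V →
    ∃ t' ∈ T, t'.1 = V ∧ sub t.2 t'.2)

/-- some input of the requirement has many queries -/
def many (a0 e s : ℕ) : Prop :=
  ∃ i < 2 ^ (4 * a0 + 1), 2 ^ (4 * a0) ≤ i ∧
    ((Code.evaln s (cq e) (encode (str i))).map fun r =>
      decide (2 ^ a0 < 512 * (dq r).length ^ 2)) = some true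

/-- both codes of the requirement are codes without unbounded search -/
def valid (e : ℕ) : Prop := isPR (cq e) = true ∧ isPR (cg e) = true

section PR

variable {α : Type} [Primcodable α]

lemma primrec_Fev2 {K e s V A : α → ℕ} {x : α → List Bool} (hK : Primrec K) (he : Primrec e)
    (hs : Primrec s) (hx : Primrec x) (hV : Primrec V) (hA : Primrec A) :
    Primrec fun a => Fev2 (K a) (e a) (s a) (x a) (V a) (A a) := by
  unfold Fev2
  refine Primrec.option_bind (primrec_evaln' hs (primrec_cq.comp he) (Primrec.encode.comp hx)) ?_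
  have h1 : Primrec (fun p : α × ℕ => p.1) := Primrec.fst
  refine Primrec.option_map (primrec_evaln' (hs.comp h1) (primrec_cg.comp (he.comp h1))
    (Primrec.encode.comp ((hx.comp h1).pair
      (primrec_ansv (hK.comp h1) (hV.comp h1) (hA.comp h1) (primrec_dq.comp Primrec.snd))))) ?_
  exact (primrec_db.comp Primrec.snd)

lemma primrec_good2 {a0 a1 e s H : α → ℕ} {t : α → ℕ × ℕ} (h0 : Primrec a0) (h1 : Primrec a1)
    (he : Primrec e) (hs : Primrec s) (hH : Primrec H) (ht : Primrec t) :
    PrimrecPred fun a => good2 (a0 a) (a1 a) (e a) (s a) (H a) (t a) := by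
  unfold good2
  have hV : Primrec fun a => (t a).1 := Primrec.fst.comp ht
  have hA : Primrec fun a => (t a).2 := Primrec.snd.comp ht
  have h4 : Primrec fun a => 4 * a0 a := Primrec.nat_mul.comp (Primrec.const 4) h0
  refine (PP.forall_lt (p := fun a i => (t a).2.testBit i = true →
      2 ^ (a0 a + 1) ≤ i ∧ i < 2 ^ (a1 a + 1)) hA ?_).and
    ((PP.forall_lt (p := fun a m => 4 * cnt (t a).2 m ≤ 2 ^ m) (Primrec.succ.comp h1) ?_).and
      (PP.exists_lt (p := fun a i => 2 ^ (4 * a0 a) ≤ i ∧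
        Fev2 (2 ^ (a1 a + 1)) (e a) (s a) (str i) (t a).1 (t a).2 =
          some (!((H a).testBit i))) ?_ ?_))
  · exact PP.imp (PP.testBit (hA.comp Primrec.fst) Primrec.snd)
      ((PP.le (primrec_pow2 (Primrec.succ.comp (h0.comp Primrec.fst))) Primrec.snd).and
        (PP.lt Primrec.snd (primrec_pow2 (Primrec.succ.comp (h1.comp Primrec.fst)))))
  · exact PP.le (Primrec.nat_mul.comp (Primrec.const 4)
      (primrec_cnt.comp (hA.comp Primrec.fst) Primrec.snd)) (primrec_pow2 Primrec.snd)
  · exact primrec_pow2 (Primrec.succ.comp h4)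
  · exact (PP.le (primrec_pow2 (h4.comp Primrec.fst)) Primrec.snd).and (PP.eq (primrec_Fev2
        (primrec_pow2 (Primrec.succ.comp (h1.comp Primrec.fst)))
        (he.comp Primrec.fst) (hs.comp Primrec.fst) (primrec_str.comp Primrec.snd)
        (hV.comp Primrec.fst) (hA.comp Primrec.fst))
        (Primrec.option_some.comp (Primrec.not.comp
          (primrec_testBit.comp (hH.comp Primrec.fst) Primrec.snd))))

lemma primrec_check2 {a0 a1 e s H : α → ℕ} {T : α → List (ℕ × ℕ)} (h0 : Primrec a0)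
    (h1 : Primrec a1) (he : Primrec e) (hs : Primrec s) (hH : Primrec H) (hT : Primrec T) :
    PrimrecPred fun a => check2 (a0 a) (a1 a) (e a) (s a) (H a) (T a) := by
  unfold check2
  refine (PP.forall_mem (p := fun a t => good2 (a0 a) (a1 a) (e a) (s a) (H a) t) hT
    (primrec_good2 (h0.comp Primrec.fst) (h1.comp Primrec.fst) (he.comp Primrec.fst)
      (hs.comp Primrec.fst) (hH.comp Primrec.fst) Primrec.snd)).and
    ((PP.forall_lt (p := fun a V => legal (a0 a) (a1 a) V → ∃ t ∈ T a, t.1 = V)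
      (primrec_pow2 (primrec_pow2 (Primrec.succ.comp h1))) ?_).and
    (PP.forall_mem (p := fun a t => ∀ V < 2 ^ 2 ^ (a1 a + 1), sub t.1 V → legal (a0 a) (a1 a) V →
      ∃ t' ∈ T a, t'.1 = V ∧ sub t.2 t'.2) hT ?_))
  · refine PP.imp (primrec_legal (h0.comp Primrec.fst) (h1.comp Primrec.fst) Primrec.snd) ?_
    refine PP.exists_mem (p := fun (a : α × ℕ) t => t.1 = a.2) (hT.comp Primrec.fst) ?_
    exact PP.eq (Primrec.fst.comp Primrec.snd) (Primrec.snd.comp Primrec.fst)
  · refine PP.forall_lt (f := fun p : α × (ℕ × ℕ) => 2 ^ 2 ^ (a1 p.1 + 1))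
      (p := fun p V => sub p.2.1 V → legal (a0 p.1) (a1 p.1) V →
      ∃ t' ∈ T p.1, t'.1 = V ∧ sub p.2.2 t'.2)
      (primrec_pow2 (primrec_pow2 (Primrec.succ.comp (h1.comp Primrec.fst)))) ?_
    refine PP.imp (primrecRel_sub.comp (Primrec.fst.comp (Primrec.snd.comp Primrec.fst))
      Primrec.snd) (PP.imp (primrec_legal (h0.comp (Primrec.fst.comp Primrec.fst))
        (h1.comp (Primrec.fst.comp Primrec.fst)) Primrec.snd) ?_)
    refine PP.exists_mem (L := fun q : (α × (ℕ × ℕ)) × ℕ => T q.1.1)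
      (p := fun q t' => t'.1 = q.2 ∧ sub q.1.2.2 t'.2) (hT.comp (Primrec.fst.comp Primrec.fst)) ?_
    have h2 : Primrec fun r : ((α × (ℕ × ℕ)) × ℕ) × (ℕ × ℕ) => r.1.1.2 :=
      Primrec.snd.comp (Primrec.fst.comp Primrec.fst)
    exact (PP.eq (Primrec.fst.comp Primrec.snd) (Primrec.snd.comp Primrec.fst)).and
      (primrecRel_sub.comp (Primrec.snd.comp h2) (Primrec.snd.comp Primrec.snd))

lemma primrec_many {a0 e s : α → ℕ} (h0 : Primrec a0) (he : Primrec e) (hs : Primrec s) :
    PrimrecPred fun a => many (a0 a) (e a) (s a) := by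
  unfold many
  have h4 : Primrec fun a => 4 * a0 a := Primrec.nat_mul.comp (Primrec.const 4) h0
  refine PP.exists_lt (f := fun a => 2 ^ (4 * a0 a + 1)) (p := fun a i => 2 ^ (4 * a0 a) ≤ i ∧
    ((Code.evaln (s a) (cq (e a)) (encode (str i))).map fun r =>
      decide (2 ^ a0 a < 512 * (dq r).length ^ 2)) = some true)
    (primrec_pow2 (Primrec.succ.comp h4)) ?_
  refine (PP.le (primrec_pow2 (h4.comp Primrec.fst)) Primrec.snd).and (PP.eq ?_
    (Primrec.const (some true)))
  refine Primrec.option_map (primrec_evaln' (hs.comp Primrec.fst) (primrec_cq.comp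
    (he.comp Primrec.fst)) (Primrec.encode.comp (primrec_str.comp Primrec.snd))) ?_
  have h5 : PrimrecPred fun p : (α × ℕ) × ℕ => 2 ^ a0 p.1.1 < 512 * (dq p.2).length ^ 2 :=
    PP.lt (primrec_pow2 (h0.comp (Primrec.fst.comp Primrec.fst)))
      (Primrec.nat_mul.comp (Primrec.const 512) (primrec_pow.comp
        (Primrec.list_length.comp (primrec_dq.comp Primrec.snd)) (Primrec.const 2)))
  exact h5.decide

lemma primrec_valid : PrimrecPred valid := by
  unfold valid
  exact (PP.eq (primrec_isPR.comp primrec_cq) (Primrec.const true)).and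
    (PP.eq (primrec_isPR.comp primrec_cg) (Primrec.const true))

end PR

end Pool.Agent.LibComp86
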