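import Mathlib

/-!
Choosing bits that agree often with every member of a small family of sequences.
-/

namespace Pool.Agent.LibComp86

variable {β γ : Type} [DecidableEq β]

/-- a family of fewer than `2 ^ d` sequences can be hit on any `d` places -/
lemma hit_one (r : γ → β → Bool) : ∀ (d : ℕ) (P : Finset γ) (Y : Finset β), P.card < 2 ^ d →
    d ≤ Y.card → ∃ ρ : β → Bool, ∀ p ∈ P, ∃ x ∈ Y, ρ x = r p x := by
  classical
  intro d
  induction d with
  | zero =>
    intro P Y hP _
    have : P = ∅ := by
      rw [← Finset.card_eq_zero]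
      simpa using hP
    subst this
    exact ⟨fun _ => false, by simp⟩
  | succ d ih =>
    intro P Y hP hY
    obtain ⟨x, hx⟩ : Y.Nonempty := Finset.card_pos.1 (by omega)
    have hsum : (P.filter fun p => r p x = true).card + (P.filter fun p => ¬ r p x = true).card =
        P.card := Finset.card_filter_add_card_filter_not _
    obtain ⟨b, hb⟩ : ∃ b : Bool, (P.filter fun p => ¬ r p x = b).card < 2 ^ d := by
      by_cases h : (P.filter fun p => ¬ r p x = true).card < 2 ^ d
      · exact ⟨true, h⟩
      · refine ⟨false, ?_⟩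
        have h1 : (P.filter fun p => ¬ r p x = false) = P.filter fun p => r p x = true := by
          apply Finset.filter_congr
          intro p _
          simp
        rw [h1]
        rw [pow_succ] at hP
        omega
    obtain ⟨ρ, hρ⟩ := ih (P.filter fun p => ¬ r p x = b) (Y.erase x) hb (by
      rw [Finset.card_erase_of_mem hx]; omega)
    refine ⟨fun y => if y = x then b else ρ y, fun p hp => ?_⟩
    by_cases hpx : r p x = b
    · exact ⟨x, hx, by simp [hpx]⟩
    · obtain ⟨y, hy, hy'⟩ := hρ p (Finset.mem_filter.2 ⟨hp, hpx⟩)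
      refine ⟨y, Finset.mem_of_mem_erase hy, ?_⟩
      show (if y = x then b else ρ y) = r p y
      rw [if_neg (Finset.ne_of_mem_erase hy)]
      exact hy'

/-- the same with many agreements -/
lemma hit_many (r : γ → β → Bool) (P : Finset γ) {d : ℕ} (hP : P.card < 2 ^ d) :
    ∀ (k : ℕ) (Y : Finset β), k * d ≤ Y.card →
    ∃ ρ : β → Bool, ∀ p ∈ P, k ≤ (Y.filter fun x => ρ x = r p x).card := by
  classical
  intro k
  induction k with
  | zero => exact fun Y _ => ⟨fun _ => false, fun p _ => Nat.zero_le _⟩
  | succ k ih =>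
    intro Y hY
    rw [Nat.succ_mul] at hY
    obtain ⟨Y1, hY1, hc⟩ := Finset.exists_subset_card_eq (show d ≤ Y.card by omega)
    obtain ⟨ρ1, h1⟩ := hit_one r d P Y1 hP hc.ge
    obtain ⟨ρ2, h2⟩ := ih (Y \ Y1) (by rw [Finset.card_sdiff_of_subset hY1]; omega)
    refine ⟨fun x => if x ∈ Y1 then ρ1 x else ρ2 x, fun p hp => ?_⟩
    obtain ⟨x, hx, hx'⟩ := h1 p hp
    have hsub : insert x ((Y \ Y1).filter fun x => ρ2 x = r p x) ⊆
        Y.filter fun y => (if y ∈ Y1 then ρ1 y else ρ2 y) = r p y := by
      intro y hy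
      rw [Finset.mem_insert] at hy
      rw [Finset.mem_filter]
      rcases hy with rfl | hy
      · exact ⟨hY1 hx, by rw [if_pos hx]; exact hx'⟩
      · rw [Finset.mem_filter, Finset.mem_sdiff] at hy
        exact ⟨hy.1.1, by rw [if_neg hy.1.2]; exact hy.2⟩
    have hnot : x ∉ (Y \ Y1).filter fun x => ρ2 x = r p x := by
      intro h
      exact (Finset.mem_sdiff.1 (Finset.mem_filter.1 h).1).2 hx
    have h3 := Finset.card_le_card hsub
    rw [Finset.card_insert_of_notMem hnot] at h3
    exact (Nat.succ_le_succ (h2 p hp)).trans h3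

end Pool.Agent.LibComp86
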