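import Mathlib
import Pool.Agent.LibRandTT.Game
import Pool.Agent.LibComp86.Hit

/-!
The finite game with roles fixed in advance.
-/

namespace Pool.Agent.LibComp86

open Pool.Agent.LibRandTT

section

variable {α β ι : Type} [DecidableEq α] [DecidableEq β] {G : GameData α β ι}

/-- roles fixed in advance that are favourable at every position for many inputs -/
def Rich (G : GameData α β ι) (X : Finset β) (Act : Finset α) (ρ : β → Bool) : Prop :=
  ∀ V A : Finset α, G.Legal V → A ⊆ Act → ∀ Us : Finset β, Us.card ≤ 4 * G.Fr.card →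
    ∃ x ∈ X, x ∉ Us ∧ ∃ A', A ⊆ A' ∧ A' ⊆ A ∪ G.Q x ∧ G.R x (ρ x) (G.Psi V A - G.κ) V A'

theorem exists_rich (hG : G.Ok) {X : Finset β} {Act : Finset α}
    (hX : (4 * G.Fr.card + 1) * (G.U.card + Act.card + 1) ≤ X.card) :
    ∃ ρ : β → Bool, Rich G X Act ρ := by
  classical
  have hr : ∀ p : Finset α × Finset α, ∀ x : β, ∃ r : Bool, G.Legal p.1 →
      ∃ A', p.2 ⊆ A' ∧ A' ⊆ p.2 ∪ G.Q x ∧ G.R x r (G.Psi p.1 p.2 - G.κ) p.1 A' := by
    intro p x
    by_cases hL : G.Legal p.1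
    · obtain ⟨r, A', h⟩ := oneInput hG x p.1 p.2 hL
      exact ⟨r, fun _ => ⟨A', h⟩⟩
    · exact ⟨false, fun h => absurd h hL⟩
  choose r hr using hr
  obtain ⟨ρ, hρ⟩ := hit_many r (G.U.powerset ×ˢ Act.powerset) (d := G.U.card + Act.card + 1) (by
    rw [Finset.card_product, Finset.card_powerset, Finset.card_powerset, ← pow_add]
    exact Nat.pow_lt_pow_right (by norm_num) (Nat.lt_succ_self _)) (4 * G.Fr.card + 1) X hX
  refine ⟨ρ, fun V A hV hA Us hUs => ?_⟩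
  have h1 := hρ (V, A) (Finset.mem_product.2 ⟨Finset.mem_powerset.2 hV.1, Finset.mem_powerset.2 hA⟩)
  obtain ⟨x, hx, hxU⟩ : ∃ x ∈ X.filter fun x => ρ x = r (V, A) x, x ∉ Us := by
    by_contra hcon
    push Not at hcon
    have := Finset.card_le_card (show (X.filter fun x => ρ x = r (V, A) x) ⊆ Us from hcon)
    omega
  rw [Finset.mem_filter] at hx
  refine ⟨x, hx.1, hxU, ?_⟩
  rw [hx.2]
  exact hr (V, A) x hV

/-- invariant describing the reachable builder positions -/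
def Inv2 (G : GameData α β ι) (X : Finset β) (Act : Finset α) (ρ : β → Bool)
    (V A : Finset α) (Us : Finset β) : Prop :=
  G.Legal V ∧ Us ⊆ X ∧ A ⊆ Act ∧ ∃ x ∈ Us,
    ∃ V0 A0 : Finset α, G.Legal V0 ∧ A ⊆ A0 ∪ G.Q x ∧
      G.Psi V0 A0 + (G.κ : ℤ) * ((Us.card : ℤ) - 1) ≤ 0 ∧
      G.R x (ρ x) (G.Psi V0 A0 - G.κ) V A

lemma start_step2 (hG : G.Ok) {X : Finset β} {Act : Finset α} {ρ : β → Bool}
    (hρ : Rich G X Act ρ) (hQ : ∀ x, G.Q x ⊆ Act) {V A : Finset α} {Us : Finset β}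
    (hV : G.Legal V) (hA : A ⊆ Act) (hUs : Us ⊆ X)
    (hΨ : G.Psi V A + (G.κ : ℤ) * (Us.card : ℤ) ≤ 0) :
    ∃ A' Us', A ⊆ A' ∧ Us ⊆ Us' ∧ Inv2 G X Act ρ V A' Us' := by
  have hκ : (0 : ℤ) < (G.κ : ℤ) := by exact_mod_cast hG.κpos
  have hcard : Us.card ≤ 4 * G.Fr.card := by
    have h1 : 0 ≤ G.Phi V A := Phi_nonneg V A
    have h2 : (V ∩ G.Fr).card ≤ G.Fr.card := Finset.card_le_card Finset.inter_subset_right
    have h2' : ((V ∩ G.Fr).card : ℤ) ≤ (G.Fr.card : ℤ) := by exact_mod_cast h2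
    unfold GameData.Psi at hΨ
    have h3 : (G.κ : ℤ) * (Us.card : ℤ) ≤ (G.κ : ℤ) * (4 * (G.Fr.card : ℤ)) := by nlinarith
    have h4 := le_of_mul_le_mul_left h3 hκ
    exact_mod_cast h4
  obtain ⟨x, hxX, hxU, A', h1, h2, h3⟩ := hρ V A hV hA Us hcard
  refine ⟨A', insert x Us, h1, Finset.subset_insert _ _, hV, Finset.insert_subset hxX hUs,
    h2.trans (Finset.union_subset hA (hQ x)), x, Finset.mem_insert_self _ _, V, A, hV, h2, ?_, h3⟩
  rw [Finset.card_insert_of_notMem hxU]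
  push_cast
  linarith

/-- the finite game theorem with roles fixed in advance -/
theorem game_table2 (hG : G.Ok) {X : Finset β} {Act : Finset α} {ρ : β → Bool}
    (hρ : Rich G X Act ρ) (hQ : ∀ x, G.Q x ⊆ Act) :
    (∀ V, G.Legal V → ∃ A Us, Inv2 G X Act ρ V A Us) ∧
    (∀ V A Us, Inv2 G X Act ρ V A Us → ∀ V', V ⊆ V' → G.Legal V' →
      ∃ A' Us', A ⊆ A' ∧ Us ⊆ Us' ∧ Inv2 G X Act ρ V' A' Us') := by
  constructor
  · intro V hV
    obtain ⟨A', Us', -, -, h⟩ := start_step2 hG hρ hQ (A := ∅) (Us := ∅) hV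
      (Finset.empty_subset _) (Finset.empty_subset _) (by
        have : G.Phi V ∅ = 0 := by
          unfold GameData.Phi
          apply Finset.sum_eq_zero
          intro m _
          have : phi (G.D V ∅ m) = 0 := by
            unfold GameData.D phi
            rw [max_eq_right (by simp)]
            simp
          rw [this, mul_zero]
        unfold GameData.Psi
        rw [this]
        have : (0 : ℤ) ≤ 4 * (G.κ : ℤ) * ((V ∩ G.Fr).card : ℤ) := by positivity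
        simp only [Finset.card_empty, Nat.cast_zero, mul_zero, add_zero]
        linarith)
    exact ⟨A', Us', h⟩
  · rintro V A Us ⟨hV, hUs, hAct, x, hx, V0, A0, hV0, hA0, hΨ, hR⟩ V' hVV' hV'
    by_cases heq : V = V'
    · subst heq
      exact ⟨A, Us, Finset.Subset.refl _, Finset.Subset.refl _, hV, hUs, hAct, x, hx, V0, A0, hV0,
        hA0, hΨ, hR⟩
    · have hss : V ⊂ V' := Finset.ssubset_iff_subset_ne.2 ⟨hVV', heq⟩
      rcases (R_unfold.1 hR).2 V' hss hV' with hexit | ⟨-, A', h1, h2, h3⟩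
      · -- exit
        refine start_step2 hG hρ hQ hV' hAct hUs ?_
        linarith
      · refine ⟨A', Us, h1, Finset.Subset.refl _, hV', hUs,
          h2.trans (Finset.union_subset hAct (hQ x)), x, hx, V0, A0, hV0, ?_, hΨ, h3⟩
        exact h2.trans (Finset.union_subset hA0 Finset.subset_union_right)

lemma Inv2.good {X : Finset β} {Act : Finset α} {ρ : β → Bool} {V A : Finset α} {Us : Finset β}
    (h : Inv2 G X Act ρ V A Us) : ∃ x ∈ Us, G.F x (V ∪ A) = !(ρ x) := by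
  obtain ⟨hV, hUs, hAct, x, hx, V0, A0, hV0, hA0, hΨ, hR⟩ := h
  exact ⟨x, hx, bool_aux (R_unfold.1 hR).1⟩

lemma Inv2.card_le (hG : G.Ok) {X : Finset β} {Act : Finset α} {ρ : β → Bool} {V A : Finset α}
    {Us : Finset β} (h : Inv2 G X Act ρ V A Us) : Us.card ≤ 4 * G.Fr.card + 1 := by
  obtain ⟨hV, hUs, hAct, x, hx, V0, A0, hV0, hA0, hΨ, hR⟩ := h
  have hκ : (0 : ℤ) < (G.κ : ℤ) := by exact_mod_cast hG.κpos
  have h1 : 0 ≤ G.Phi V0 A0 := Phi_nonneg V0 A0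
  have h2 : (V0 ∩ G.Fr).card ≤ G.Fr.card := Finset.card_le_card Finset.inter_subset_right
  have h2' : ((V0 ∩ G.Fr).card : ℤ) ≤ (G.Fr.card : ℤ) := by exact_mod_cast h2
  unfold GameData.Psi at hΨ
  have h3 : (G.κ : ℤ) * ((Us.card : ℤ) - 1) ≤ (G.κ : ℤ) * (4 * (G.Fr.card : ℤ)) := by nlinarith
  have h4 := le_of_mul_le_mul_left h3 hκ
  have h5 : (Us.card : ℤ) ≤ 4 * (G.Fr.card : ℤ) + 1 := by linarith
  exact_mod_cast h5

/-- budget bound -/
lemma Inv2.budget (hG : G.Ok) {X : Finset β} {Act : Finset α} {ρ : β → Bool} {V A : Finset α}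
    {Us : Finset β} (h : Inv2 G X Act ρ V A Us) {m : ι} (hm : m ∈ G.M) {B : ℕ}
    (hB : ∀ d : ℤ, (G.c m : ℤ) * phi d ≤ 4 * (G.κ : ℤ) * (G.Fr.card : ℤ) → d ≤ B) :
    (A ∩ G.Lv m).card ≤ G.bV m + B + G.q := by
  obtain ⟨hV, hUs, hAct, x, hx, V0, A0, hV0, hA0, hΨ, hR⟩ := h
  have hκ : (0 : ℤ) < (G.κ : ℤ) := by exact_mod_cast hG.κpos
  have h1 : 1 ≤ Us.card := Finset.card_pos.2 ⟨x, hx⟩
  have h1' : (1 : ℤ) ≤ (Us.card : ℤ) := by exact_mod_cast h1
  have h2 : G.Psi V0 A0 ≤ 0 := by nlinarith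
  have h3 : (V0 ∩ G.Fr).card ≤ G.Fr.card := Finset.card_le_card Finset.inter_subset_right
  have h3' : ((V0 ∩ G.Fr).card : ℤ) ≤ (G.Fr.card : ℤ) := by exact_mod_cast h3
  have h4 : G.Phi V0 A0 ≤ 4 * (G.κ : ℤ) * (G.Fr.card : ℤ) := by
    unfold GameData.Psi at h2
    nlinarith
  have h5 : (G.c m : ℤ) * phi (G.D V0 A0 m) ≤ G.Phi V0 A0 := by
    unfold GameData.Phi
    exact Finset.single_le_sum (f := fun m => (G.c m : ℤ) * phi (G.D V0 A0 m))
      (fun m _ => mul_nonneg (by positivity) (phi_nonneg _)) hm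
  have h6 := hB _ (h5.trans h4)
  unfold GameData.D at h6
  have h7 := hV0.2 m hm
  have h8 : (A ∩ G.Lv m).card ≤ (A0 ∩ G.Lv m).card + G.q := by
    calc (A ∩ G.Lv m).card ≤ ((A0 ∪ G.Q x) ∩ G.Lv m).card := card_inter_mono hA0
      _ ≤ (A0 ∩ G.Lv m).card + (G.Q x ∩ G.Lv m).card := by
          rw [Finset.union_inter_distrib_right]; exact Finset.card_union_le _ _
      _ ≤ _ := by have := hG.qle x m hm; omega
  omega

end

end Pool.Agent.LibComp86
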