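import Mathlib
import Pool.Agent.LibRandTT.CheckExists
import Pool.Agent.LibComp86.Check2
import Pool.Agent.LibComp86.Game2

/-!
Existence of winning tables with roles fixed in advance.
-/

namespace Pool.Agent.LibComp86

open Nat.Partrec Encodable Denumerable Pool.Agent.LibRandTT

/-- numbers of the inputs of length `n` -/
def Xn (n : ℕ) : Finset ℕ := Finset.Ico (2 ^ n) (2 ^ (n + 1))

section

variable (a0 a1 a2 n qb : ℕ) (q : List Bool → List (List Bool)) (g : List Bool → List Bool → Bool)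

open Classical in
/-- the game on lengths up to `a2` with inputs of length `n` -/
noncomputable def GN : GameData ℕ ℕ ℕ where
  U := Finset.range (2 ^ (a2 + 1))
  Fr := Finset.range (2 ^ (a0 + 1))
  M := Finset.Ioc a0 a2
  Lv := fun m => Finset.Ico (2 ^ m) (2 ^ (m + 1))
  c := fun m => 4 ^ (a2 - m)
  bV := fun m => 2 ^ m / 32
  F := fun i N => if i ∈ Xn n then
    g (str i) ((q (str i)).map (fun y => decide (num y < 2 ^ (a2 + 1) ∧ num y ∉ N))) else false
  Q := fun i => if i ∈ Xn n then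
    ((q (str i)).map num).toFinset.filter (fun j => 2 ^ (a0 + 1) ≤ j ∧ j < 2 ^ (a2 + 1)) else ∅
  q := qb
  κ := 4 ^ (a2 - a0) * qb ^ 2

/-- long queries of an input -/
def HQ (i : ℕ) : Finset ℕ := if i ∈ Xn n then
    ((q (str i)).map num).toFinset.filter (fun j => 2 ^ (a2 + 1) ≤ j ∧ j < 2 ^ (a1 + 1)) else ∅

variable {a0 a1 a2 n qb q g}

lemma str_length_Xn {i : ℕ} (hi : i ∈ Xn n) : (str i).length = n := by
  unfold Xn at hi
  rw [str_length]
  rw [Finset.mem_Ico] at hi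
  exact (Nat.log_eq_iff (Or.inr ⟨by norm_num, by
    have : 0 < 2 ^ n := by positivity
    omega⟩)).2 hi

lemma GN_legal {V : ℕ} (h : legal a0 a1 V) (h21 : a2 ≤ a1) :
    (GN a0 a2 n qb q g).Legal (bs V ∩ Finset.range (2 ^ (a2 + 1))) := by
  refine ⟨Finset.inter_subset_right, fun m hm => ?_⟩
  simp only [GN, Finset.mem_Ioc] at hm
  have h1 := h.2 m (by omega) hm.1
  have h2 : (bs V ∩ Finset.range (2 ^ (a2 + 1)) ∩ Finset.Ico (2 ^ m) (2 ^ (m + 1))).card ≤
      cnt V m :=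
    Finset.card_le_card (Finset.inter_subset_inter_right Finset.inter_subset_left)
  change (bs V ∩ Finset.range (2 ^ (a2 + 1)) ∩ Finset.Ico (2 ^ m) (2 ^ (m + 1))).card ≤ 2 ^ m / 32
  omega

lemma GN_ok (h01 : a0 ≤ a2) (hqb : 1 ≤ qb)
    (hlen : ∀ x : List Bool, x.length = n → (q x).length ≤ qb) :
    (GN a0 a2 n qb q g).Ok where
  κpos := by
    simp only [GN]
    positivity
  κge := by
    simp only [GN]
    rw [← Finset.sum_mul]
    apply Nat.mul_le_mul_right
    have := geom4 a0 a2 h01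
    omega
  supp := by
    intro x N N' h
    simp only [GN] at h ⊢
    split_ifs at h ⊢ with hx
    · congr 1
      apply List.map_congr_left
      intro y hy
      by_cases hK : num y < 2 ^ (a2 + 1)
      · have hmem : num y ∈ (Finset.range (2 ^ (a0 + 1)) ∪
            ((q (str x)).map num).toFinset.filter (fun j => 2 ^ (a0 + 1) ≤ j ∧ j < 2 ^ (a2 + 1))) := by
          rw [Finset.mem_union, Finset.mem_range, Finset.mem_filter, List.mem_toFinset,
            List.mem_map]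
          by_cases h0 : num y < 2 ^ (a0 + 1)
          · exact Or.inl h0
          · exact Or.inr ⟨⟨y, hy, rfl⟩, by omega, hK⟩
        have h1 := Finset.ext_iff.1 h (num y)
        rw [Finset.mem_inter, Finset.mem_inter] at h1
        have h2 : num y ∈ N ↔ num y ∈ N' := by tauto
        simp [h2]
      · simp [hK]
    · rfl
  disj := by
    intro x
    simp only [GN]
    split_ifs with hx
    · rw [Finset.disjoint_left]
      intro j hj hj'
      rw [Finset.mem_filter] at hj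
      rw [Finset.mem_range] at hj'
      omega
    · simp
  qle := by
    intro x m hm
    simp only [GN]
    split_ifs with hx
    · refine (Finset.card_le_card Finset.inter_subset_left).trans ?_
      refine (Finset.card_filter_le _ _).trans ?_
      refine (List.toFinset_card_le _).trans ?_
      rw [List.length_map]
      exact hlen _ (str_length_Xn hx)
    · simp

lemma HQ_card (hlen : ∀ x : List Bool, x.length = n → (q x).length ≤ qb) (i : ℕ) :
    (HQ a1 a2 n q i).card ≤ qb := by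
  unfold HQ
  split_ifs with hx
  · refine (Finset.card_filter_le _ _).trans ?_
    refine (List.toFinset_card_le _).trans ?_
    rw [List.length_map]
    exact hlen _ (str_length_Xn hx)
  · simp

lemma mem_HQ {i j : ℕ} (h : j ∈ HQ a1 a2 n q i) : 2 ^ (a2 + 1) ≤ j ∧ j < 2 ^ (a1 + 1) := by
  unfold HQ at h
  split_ifs at h with hx
  · exact (Finset.mem_filter.1 h).2
  · simp at h

lemma GN_Q_sub (x : ℕ) : (GN a0 a2 n qb q g).Q x ⊆ Act a0 a2 := by
  simp only [GN]
  split_ifs with hx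
  · intro j hj
    rw [Finset.mem_filter] at hj
    exact Finset.mem_Ico.2 hj.2
  · simp

lemma GN_rich_size (ha : 10 ≤ a0) :
    (4 * (GN a0 (2 * a0) (4 * a0) qb q g).Fr.card + 1) *
      ((GN a0 (2 * a0) (4 * a0) qb q g).U.card + (Act a0 (2 * a0)).card + 1) ≤
      (Xn (4 * a0)).card := by
  simp only [GN, Xn, Act, Finset.card_range, Nat.card_Ico]
  have h1 : 4 * 2 ^ (a0 + 1) + 1 ≤ 2 ^ (a0 + 4) := by
    have e1 : 2 ^ (a0 + 1) = 2 * 2 ^ a0 := by ring
    have e2 : 2 ^ (a0 + 4) = 16 * 2 ^ a0 := by ring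
    have : 0 < 2 ^ a0 := by positivity
    omega
  have h2 : 2 ^ (2 * a0 + 1) + (2 ^ (2 * a0 + 1) - 2 ^ (a0 + 1)) + 1 ≤ 2 ^ (2 * a0 + 3) := by
    have e1 : 2 ^ (2 * a0 + 1) = 2 * 2 ^ (2 * a0) := by ring
    have e2 : 2 ^ (2 * a0 + 3) = 8 * 2 ^ (2 * a0) := by ring
    have : 0 < 2 ^ (2 * a0) := by positivity
    omega
  refine (Nat.mul_le_mul h1 h2).trans ?_
  rw [← pow_add]
  have e3 : 2 ^ (4 * a0 + 1) - 2 ^ (4 * a0) = 2 ^ (4 * a0) := by
    rw [pow_succ]; omega
  rw [e3]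
  exact Nat.pow_le_pow_right (by norm_num) (by omega)

/-- budget computation on the lower levels -/
lemma GN_budget (h01 : a0 ≤ a2) (hqb : 1 ≤ qb) (h512 : 512 * qb ^ 2 ≤ 2 ^ a0)
    (hlen : ∀ x : List Bool, x.length = n → (q x).length ≤ qb) {ρ : ℕ → Bool} {X V A Us : Finset ℕ}
    (h : Inv2 (GN a0 a2 n qb q g) X (Act a0 a2) ρ V A Us) {m : ℕ} (hm0 : a0 < m) (hm1 : m ≤ a2) :
    4 * (A ∩ Finset.Ico (2 ^ m) (2 ^ (m + 1))).card ≤ 2 ^ m := by
  have hB := Inv2.budget (GN_ok h01 hqb hlen) h (m := m) (by simp [GN, hm0, hm1]) (B := 2 ^ m / 8) ?_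
  · have hB' : (A ∩ Finset.Ico (2 ^ m) (2 ^ (m + 1))).card ≤ 2 ^ m / 32 + 2 ^ m / 8 + qb := hB
    have h1 : 2 ^ a0 ≤ 2 ^ m := Nat.pow_le_pow_right (by norm_num) hm0.le
    have h2 : qb ≤ qb ^ 2 := by nlinarith
    omega
  · intro d hd
    simp only [GN, Finset.card_range] at hd
    push_cast at hd
    have e1 : (4 : ℤ) ^ (a2 - a0) = 4 ^ (a2 - m) * 4 ^ (m - a0) := by
      rw [← pow_add]; congr 1; omega
    have hpos : (0 : ℤ) < 4 ^ (a2 - m) := by positivity
    have h2 : phi d ≤ 8 * (4 : ℤ) ^ (m - a0) * (qb : ℤ) ^ 2 * 2 ^ a0 := by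
      have : (4 : ℤ) ^ (a2 - m) * phi d ≤
          (4 : ℤ) ^ (a2 - m) * (8 * (4 : ℤ) ^ (m - a0) * (qb : ℤ) ^ 2 * 2 ^ a0) := by
        calc (4 : ℤ) ^ (a2 - m) * phi d ≤ _ := hd
          _ = (4 : ℤ) ^ (a2 - m) * (8 * (4 : ℤ) ^ (m - a0) * (qb : ℤ) ^ 2 * 2 ^ a0) := by
              rw [e1, pow_succ]; ring
      exact le_of_mul_le_mul_left this hpos
    have h512' : (512 : ℤ) * (qb : ℤ) ^ 2 ≤ 2 ^ a0 := by exact_mod_cast h512
    have e2 : (4 : ℤ) ^ (m - a0) * (2 ^ a0 * 2 ^ a0) = (2 ^ m) ^ 2 := by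
      have : (4 : ℤ) = 2 ^ 2 := by norm_num
      rw [this, ← pow_mul, ← pow_add, ← pow_add, ← pow_mul]
      congr 1
      omega
    have h3 : 64 * phi d ≤ (2 ^ m : ℤ) ^ 2 := by
      rw [← e2]
      have hp : (0 : ℤ) ≤ 4 ^ (m - a0) * 2 ^ a0 := by positivity
      nlinarith [mul_le_mul_of_nonneg_left h512' hp]
    have h4 : 8 * d ≤ 2 ^ m := by
      unfold phi at h3
      have h5 : d ≤ max d 0 := le_max_left _ _
      have h6 : (0 : ℤ) ≤ max d 0 := le_max_right _ _
      have h7 : (0 : ℤ) ≤ 2 ^ m := by positivity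
      have h8 : (8 * max d 0) ^ 2 ≤ ((2 : ℤ) ^ m) ^ 2 := by nlinarith
      have h9 : 8 * max d 0 ≤ (2 : ℤ) ^ m := by
        by_contra hcon
        push Not at hcon
        nlinarith
      linarith
    push_cast
    rw [Int.le_ediv_iff_mul_le (by norm_num)]
    linarith

lemma Fev2_eventually {e : ℕ} (hq : ∀ x, ∃ r ∈ (cq e).eval (encode x), dq r = q x)
    (hg : ∀ (x : List Bool) (ans : List Bool), ∃ r ∈ (cg e).eval (encode (x, ans)), db r = g x ans)
    (K : ℕ) (x : List Bool) (V A : ℕ) : ∃ s0, ∀ s ≥ s0, Fev2 K e s x V A =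
      some (g x (ansv K V A (q x))) := by
  obtain ⟨r1, hr1, hd1⟩ := hq x
  obtain ⟨r2, hr2, hd2⟩ := hg x (ansv K V A (q x))
  obtain ⟨s1, hs1⟩ := evaln_eq_some hr1
  obtain ⟨s2, hs2⟩ := evaln_eq_some hr2
  refine ⟨max s1 s2, fun s hs => ?_⟩
  unfold Fev2
  rw [hs1 s (le_trans (le_max_left _ _) hs)]
  simp only [Option.bind_some]
  rw [hd1, hs2 s (le_trans (le_max_right _ _) hs)]
  simp only [Option.map_some, hd2]

/-- the answers at a position -/
lemma ansv_eq (h21 : a2 ≤ a1) {V As : ℕ} {A Us : Finset ℕ} {x : ℕ} (hx : x ∈ Xn n) (hxU : x ∈ Us)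
    (hAs : bs As = A ∪ Us.biUnion (HQ a1 a2 n q)) :
    (GN a0 a2 n qb q g).F x (bs V ∩ Finset.range (2 ^ (a2 + 1)) ∪ A) =
      g (str x) (ansv (2 ^ (a1 + 1)) V As (q (str x))) := by
  simp only [GN]
  rw [if_pos hx]
  congr 1
  unfold ansv
  apply List.map_congr_left
  intro y hy
  refine decide_eq_decide.2 ?_
  have hpow : 2 ^ (a2 + 1) ≤ 2 ^ (a1 + 1) := Nat.pow_le_pow_right (by norm_num) (by omega)
  have h1 : As.testBit (num y) = true ↔ num y ∈ A ∪ Us.biUnion (HQ a1 a2 n q) := by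
    rw [← mem_bs, hAs]
  rw [h1, ← mem_bs (v := V)]
  by_cases hK : num y < 2 ^ (a2 + 1)
  · have h2 : num y ∉ Us.biUnion (HQ a1 a2 n q) := by
      intro h
      rw [Finset.mem_biUnion] at h
      obtain ⟨i, -, hi⟩ := h
      have := mem_HQ hi
      omega
    simp only [Finset.mem_union, Finset.mem_inter, Finset.mem_range]
    have h3 : num y < 2 ^ (a1 + 1) := by omega
    tauto
  · constructor
    · rintro ⟨h, -⟩; exact absurd h hK
    · rintro ⟨h3, -, h4⟩
      exfalso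
      apply h4
      rw [Finset.mem_union, Finset.mem_biUnion]
      refine Or.inr ⟨x, hxU, ?_⟩
      unfold HQ
      rw [if_pos hx, Finset.mem_filter, List.mem_toFinset, List.mem_map]
      exact ⟨⟨y, hy, rfl⟩, by omega, h3⟩

theorem check_exists2 {e : ℕ} (ha : 10 ≤ a0) (h01 : 2 * a0 ≤ a1) (hqb : 1 ≤ qb)
    (h512 : 512 * qb ^ 2 ≤ 2 ^ a0)
    (hlen : ∀ x : List Bool, x.length = 4 * a0 → (q x).length ≤ qb)
    (hq : ∀ x, ∃ r ∈ (cq e).eval (encode x), dq r = q x)
    (hg : ∀ (x : List Bool) (ans : List Bool), ∃ r ∈ (cg e).eval (encode (x, ans)),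
      db r = g x ans) :
    ∃ s H T, check2 a0 a1 e s H T := by
  classical
  -- uniform fuel
  have hfuel : ∃ s0, ∀ s ≥ s0, ∀ i ∈ Xn (4 * a0), ∀ V < 2 ^ 2 ^ (a1 + 1),
      ∀ A < 2 ^ 2 ^ (a1 + 1), Fev2 (2 ^ (a1 + 1)) e s (str i) V A =
        some (g (str i) (ansv (2 ^ (a1 + 1)) V A (q (str i)))) := by
    choose! f hf using fun (i V A : ℕ) =>
      Fev2_eventually (q := q) (g := g) (e := e) hq hg (2 ^ (a1 + 1)) (str i) V A
    refine ⟨(Xn (4 * a0)).sup fun i => (Finset.range (2 ^ 2 ^ (a1 + 1))).sup fun V =>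
      (Finset.range (2 ^ 2 ^ (a1 + 1))).sup fun A => f i V A, fun s hs i hi V hV A hA => ?_⟩
    apply hf i V A
    refine le_trans ?_ hs
    refine le_trans ?_ (Finset.le_sup (f := fun i => (Finset.range (2 ^ 2 ^ (a1 + 1))).sup fun V =>
      (Finset.range (2 ^ 2 ^ (a1 + 1))).sup fun A => f i V A) hi)
    refine le_trans ?_ (Finset.le_sup (f := fun V =>
      (Finset.range (2 ^ 2 ^ (a1 + 1))).sup fun A => f i V A) (Finset.mem_range.2 hV))
    exact Finset.le_sup (f := fun A => f i V A) (Finset.mem_range.2 hA)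
  obtain ⟨s, hs⟩ := hfuel
  have hs := hs s le_rfl
  set G := GN a0 (2 * a0) (4 * a0) qb q g with hG
  have hok : G.Ok := GN_ok (by omega) hqb hlen
  obtain ⟨ρ, hρ⟩ := exists_rich hok (X := Xn (4 * a0)) (Act := Act a0 (2 * a0)) (GN_rich_size ha)
  obtain ⟨ht1, ht2⟩ := game_table2 hok hρ GN_Q_sub
  set low := Finset.range (2 ^ (2 * a0 + 1)) with hlow
  set P : ℕ → ℕ → Prop := fun V As => ∃ A Us, Inv2 G (Xn (4 * a0)) (Act a0 (2 * a0)) ρ
    (bs V ∩ low) A Us ∧ bs As = A ∪ Us.biUnion (HQ a1 (2 * a0) (4 * a0) q) with hP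
  have hmk : ∀ A Us V, Inv2 G (Xn (4 * a0)) (Act a0 (2 * a0)) ρ V A Us → ∃ As < 2 ^ 2 ^ (a1 + 1),
      bs As = A ∪ Us.biUnion (HQ a1 (2 * a0) (4 * a0) q) := by
    intro A Us V hI
    have hb : ∀ i ∈ A ∪ Us.biUnion (HQ a1 (2 * a0) (4 * a0) q), i < 2 ^ (a1 + 1) := by
      intro i hi
      rw [Finset.mem_union] at hi
      rcases hi with hi | hi
      · have h1 := (Finset.mem_Ico.1 (hI.2.2.1 hi)).2
        exact h1.trans_le (Nat.pow_le_pow_right (by norm_num) (by omega))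
      · rw [Finset.mem_biUnion] at hi
        obtain ⟨j, -, hj⟩ := hi
        exact (mem_HQ hj).2
    refine ⟨mask (fun i => decide (i ∈ A ∪ Us.biUnion (HQ a1 (2 * a0) (4 * a0) q)))
      (2 ^ (a1 + 1)), mask_lt _ _, bs_mask _ _ hb⟩
  refine ⟨s, mask ρ (2 ^ (4 * a0 + 1)), ((List.range (2 ^ 2 ^ (a1 + 1))).product
    (List.range (2 ^ 2 ^ (a1 + 1)))).filter (fun t => decide (P t.1 t.2)), ?_, ?_, ?_⟩
  · rintro ⟨V, As⟩ ht
    rw [List.mem_filter, List.pair_mem_product, List.mem_range, List.mem_range,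
      decide_eq_true_eq] at ht
    obtain ⟨⟨hV, hAs⟩, A, Us, hInv, hbs⟩ := ht
    refine ⟨?_, ?_, ?_⟩
    · intro i _ hi
      have h1 : i ∈ A ∪ Us.biUnion (HQ a1 (2 * a0) (4 * a0) q) := by
        rw [← hbs]; exact mem_bs.2 hi
      rw [Finset.mem_union] at h1
      rcases h1 with h1 | h1
      · have h2 := Finset.mem_Ico.1 (hInv.2.2.1 h1)
        exact ⟨h2.1, h2.2.trans_le (Nat.pow_le_pow_right (by norm_num) (by omega))⟩
      · rw [Finset.mem_biUnion] at h1
        obtain ⟨j, -, hj⟩ := h1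
        have h2 := mem_HQ hj
        exact ⟨(Nat.pow_le_pow_right (by norm_num) (by omega)).trans h2.1, h2.2⟩
    · intro m hm
      show 4 * (bs As ∩ Finset.Ico (2 ^ m) (2 ^ (m + 1))).card ≤ 2 ^ m
      rw [hbs]
      rcases Nat.lt_or_ge (2 * a0) m with h2 | h2
      · -- high levels
        have hsub : (A ∪ Us.biUnion (HQ a1 (2 * a0) (4 * a0) q)) ∩
            Finset.Ico (2 ^ m) (2 ^ (m + 1)) ⊆ Us.biUnion (HQ a1 (2 * a0) (4 * a0) q) := by
          intro i hi
          rw [Finset.mem_inter, Finset.mem_union, Finset.mem_Ico] at hi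
          rcases hi.1 with h3 | h3
          · exfalso
            have h4 := (Finset.mem_Ico.1 (hInv.2.2.1 h3)).2
            have h5 : 2 ^ (2 * a0 + 1) ≤ 2 ^ m := Nat.pow_le_pow_right (by norm_num) (by omega)
            omega
          · exact h3
        have hc1 := Finset.card_le_card hsub
        have hc2 : (Us.biUnion (HQ a1 (2 * a0) (4 * a0) q)).card ≤ Us.card * qb :=
          Finset.card_biUnion_le_card_mul _ _ _ fun i _ => HQ_card hlen i
        have hc3 : Us.card ≤ 4 * 2 ^ (a0 + 1) + 1 := by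
          have := Inv2.card_le hok hInv
          simpa [hG, GN] using this
        have hc4 : Us.card * qb ≤ (4 * 2 ^ (a0 + 1) + 1) * qb := Nat.mul_le_mul_right _ hc3
        have h6 : qb ≤ qb ^ 2 := by nlinarith
        have h7 : 512 * qb ≤ 2 ^ a0 := by omega
        have h8 : 2 * (2 ^ a0 * 2 ^ a0) ≤ 2 ^ m := by
          rw [← pow_add, mul_comm, ← pow_succ]
          exact Nat.pow_le_pow_right (by norm_num) (by omega)
        have h9 : (4 * 2 ^ (a0 + 1) + 1) * (512 * qb) ≤ (4 * 2 ^ (a0 + 1) + 1) * 2 ^ a0 :=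
          Nat.mul_le_mul_left _ h7
        have h10 : (4 * 2 ^ (a0 + 1) + 1) * 2 ^ a0 ≤ 9 * (2 ^ a0 * 2 ^ a0) := by
          have e1 : 2 ^ (a0 + 1) = 2 * 2 ^ a0 := by ring
          rw [e1]
          have : 1 ≤ 2 ^ a0 := Nat.one_le_two_pow
          nlinarith
        have h11 : 512 * ((4 * 2 ^ (a0 + 1) + 1) * qb) = (4 * 2 ^ (a0 + 1) + 1) * (512 * qb) := by
          ring
        omega
      · -- low levels
        have hsub : (A ∪ Us.biUnion (HQ a1 (2 * a0) (4 * a0) q)) ∩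
            Finset.Ico (2 ^ m) (2 ^ (m + 1)) ⊆ A ∩ Finset.Ico (2 ^ m) (2 ^ (m + 1)) := by
          intro i hi
          rw [Finset.mem_inter, Finset.mem_union, Finset.mem_Ico] at hi
          rw [Finset.mem_inter, Finset.mem_Ico]
          refine ⟨?_, hi.2⟩
          rcases hi.1 with h3 | h3
          · exact h3
          · exfalso
            rw [Finset.mem_biUnion] at h3
            obtain ⟨j, -, hj⟩ := h3
            have h4 := (mem_HQ hj).1
            have h5 : 2 ^ (m + 1) ≤ 2 ^ (2 * a0 + 1) :=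
              Nat.pow_le_pow_right (by norm_num) (by omega)
            omega
        refine (Nat.mul_le_mul_left 4 (Finset.card_le_card hsub)).trans ?_
        rcases Nat.lt_or_ge a0 m with h0 | h0
        · exact GN_budget (by omega) hqb h512 hlen hInv h0 h2
        · have : A ∩ Finset.Ico (2 ^ m) (2 ^ (m + 1)) = ∅ := by
            rw [Finset.eq_empty_iff_forall_notMem]
            intro i hi
            rw [Finset.mem_inter, Finset.mem_Ico] at hi
            have h1 := Finset.mem_Ico.1 (hInv.2.2.1 hi.1)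
            have h3 : 2 ^ (m + 1) ≤ 2 ^ (a0 + 1) := Nat.pow_le_pow_right (by norm_num) (by omega)
            omega
          rw [this]
          simp
    · obtain ⟨i, hiU, hF⟩ := Inv2.good hInv
      have hi : i ∈ Xn (4 * a0) := hInv.2.1 hiU
      have hi' := Finset.mem_Ico.1 (show i ∈ Finset.Ico (2 ^ (4 * a0)) (2 ^ (4 * a0 + 1)) from hi)
      refine ⟨i, hi'.2, hi'.1, ?_⟩
      rw [hs i hi V hV As hAs]
      rw [hG, hlow, ansv_eq (by omega) hi hiU hbs] at hF
      rw [hF]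
      congr 2
      rw [testBit_mask]
      simp [hi'.2]
  · intro V hV hleg
    obtain ⟨A, Us, hInv⟩ := ht1 (bs V ∩ low) (GN_legal hleg (by omega))
    obtain ⟨As, hAs, hbs⟩ := hmk A Us _ hInv
    refine ⟨(V, As), ?_, rfl⟩
    rw [List.mem_filter, List.pair_mem_product, List.mem_range, List.mem_range,
      decide_eq_true_eq]
    exact ⟨⟨hV, hAs⟩, A, Us, hInv, hbs⟩
  · rintro ⟨V, As⟩ ht V' hV' hsub hleg
    rw [List.mem_filter, decide_eq_true_eq] at ht
    obtain ⟨-, A, Us, hInv, hbs⟩ := ht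
    obtain ⟨A', Us', hAA, hUU, hInv'⟩ := ht2 _ _ _ hInv (bs V' ∩ low)
      (Finset.inter_subset_inter_right (sub_iff.1 hsub)) (GN_legal hleg (by omega))
    obtain ⟨As', hAs', hbs'⟩ := hmk A' Us' _ hInv'
    refine ⟨(V', As'), ?_, rfl, ?_⟩
    · rw [List.mem_filter, List.pair_mem_product, List.mem_range, List.mem_range,
        decide_eq_true_eq]
      exact ⟨⟨hV', hAs'⟩, A', Us', hInv', hbs'⟩
    · rw [sub_iff]
      show bs As ⊆ bs As'
      rw [hbs, hbs']
      exact Finset.union_subset_union hAA (Finset.biUnion_subset_biUnion_of_subset_left _ hUU)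

end

end Pool.Agent.LibComp86
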