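import Mathlib
import Pool.Agent.LibRandTT.Dyn
import Pool.Agent.LibComp86.Exists2

/-!
The global effective construction: all requirements are played in parallel, each on its own
interval of lengths; the roles are those of the first winning table.
-/

namespace Pool.Agent.LibComp86

open Nat.Partrec Encodable Denumerable Pool.Agent.LibRandTT

section

variable (B : ℕ → ℕ) (c : Code)

/-- lower ends of the intervals of lengths -/
def b0 : ℕ → ℕ
  | 0 => 100
  | e + 1 => 8 * b0 e + B e

/-- upper ends -/
def b1 (e : ℕ) : ℕ := b0 B (e + 1)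

lemma b0_pos (e : ℕ) : 100 ≤ b0 B e := by
  induction e with
  | zero => simp [b0]
  | succ e ih => rw [b0]; omega

lemma b0_lt_b1 (e : ℕ) : b0 B e < b1 B e := by
  have := b0_pos B e
  unfold b1
  rw [b0]
  omega

lemma b0_strictMono : StrictMono (b0 B) := strictMono_nat_of_lt_succ (b0_lt_b1 B)

lemma b0_ge (e : ℕ) : e + 100 ≤ b0 B e := by
  induction e with
  | zero => simp [b0]
  | succ e ih =>
    have := b0_lt_b1 B e
    unfold b1 at this
    omega

/-- decoded candidate: fuel, roles, table -/
def dc (k : ℕ) : ℕ × ℕ × List (ℕ × ℕ) :=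
  (decode (α := ℕ × ℕ × List (ℕ × ℕ)) k).getD (0, 0, [])

lemma dc_encode (x : ℕ × ℕ × List (ℕ × ℕ)) : dc (encode x) = x := by
  unfold dc; rw [encodek]; rfl

/-- the candidate `k` is a winning table of requirement `e` -/
def win (e k : ℕ) : Prop := check2 (b0 B e) (b1 B e) e (dc k).1 (dc k).2.1 (dc k).2.2

open Classical in
/-- first winning table below `s` -/
noncomputable def fnd (e s : ℕ) : Option ℕ :=
  ((List.range s).filter (fun k => decide (win B e k))).head?

open Classical in
/-- answer of the builder -/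
noncomputable def resp (T : List (ℕ × ℕ)) (V : ℕ) (p : ℕ) : ℕ :=
  ((T.filter (fun t => decide (t.1 = V ∧ sub p t.2))).map (fun t => t.2)).head?.getD p

open Classical in
/-- environment mask -/
noncomputable def env2 (e s : ℕ) (S : ℕ → ℕ) : ℕ :=
  mask (fun i => decide ((Code.evaln s c (encode (str i))).isSome = true ∨
    (i < 2 ^ (b0 B e + 1) ∧ ∃ e' < e, (S e').testBit i = true))) (2 ^ (b1 B e + 1))

/-- next state of requirement `e` -/
noncomputable def nxt2 (e s : ℕ) (S : ℕ → ℕ) : ℕ :=
  ((fnd B e s).map (fun k => resp (dc k).2.2 (env2 B c e s S) (S e))).getD (S e)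

/-- state of requirement `e` at stage `s` -/
noncomputable def St2 : ℕ → ℕ → ℕ
  | 0, _ => 0
  | s + 1, e => nxt2 B c e s (St2 s)

variable {B c}

lemma fnd_spec {e s k : ℕ} (h : fnd B e s = some k) :
    win B e k ∧ ∀ k' < k, ¬ win B e k' := by
  classical
  unfold fnd at h
  rw [List.head?_filter] at h
  have h1 := List.find?_some h
  rw [decide_eq_true_eq] at h1
  refine ⟨h1, fun k' hk' hw => ?_⟩
  rw [List.find?_range_eq_some] at h
  have := h.2.2 k' hk'
  simp [hw] at this

lemma fnd_succ {e s k : ℕ} (h : fnd B e s = some k) : fnd B e (s + 1) = some k := by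
  unfold fnd at h ⊢
  rw [List.range_succ, List.filter_append, List.head?_append, h]
  rfl

lemma fnd_mono {e s s' k : ℕ} (hs : s ≤ s') (h : fnd B e s = some k) : fnd B e s' = some k := by
  induction s', hs using Nat.le_induction with
  | base => exact h
  | succ n _ ih => exact fnd_succ ih

lemma fnd_exists {e k : ℕ} (h : win B e k) : ∃ s k', fnd B e s = some k' := by
  classical
  refine ⟨k + 1, ?_⟩
  rw [← Option.isSome_iff_exists]
  unfold fnd
  rw [List.isSome_head?]
  intro hnil
  rw [List.filter_eq_nil_iff] at hnil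
  have := hnil k (by simp)
  simp [h] at this

lemma resp_cases (T : List (ℕ × ℕ)) (V : ℕ) (p : ℕ) :
    resp T V p = p ∨ ∃ t ∈ T, t.1 = V ∧ sub p t.2 ∧ resp T V p = t.2 := by
  classical
  unfold resp
  cases h : ((T.filter (fun t => decide (t.1 = V ∧ sub p t.2))).map (fun t => t.2)).head? with
  | none => left; rfl
  | some r =>
    right
    have h1 := List.mem_of_mem_head? (Option.mem_def.2 h)
    rw [List.mem_map] at h1
    obtain ⟨t, ht, rfl⟩ := h1
    rw [List.mem_filter, decide_eq_true_eq] at ht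
    exact ⟨t, ht.1, ht.2.1, ht.2.2, rfl⟩

lemma resp_mem {T : List (ℕ × ℕ)} {V : ℕ} {p : ℕ} (h : ∃ t ∈ T, t.1 = V ∧ sub p t.2) :
    (V, resp T V p) ∈ T := by
  classical
  unfold resp
  cases h' : ((T.filter (fun t => decide (t.1 = V ∧ sub p t.2))).map (fun t => t.2)).head? with
  | none =>
    exfalso
    rw [List.head?_eq_none_iff, List.map_eq_nil_iff, List.filter_eq_nil_iff] at h'
    obtain ⟨t, ht, h1⟩ := h
    have := h' t ht
    simp only [decide_eq_true_eq] at this
    exact this h1
  | some r =>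
    have h1 := List.mem_of_mem_head? (Option.mem_def.2 h')
    rw [List.mem_map] at h1
    obtain ⟨t, ht, rfl⟩ := h1
    rw [List.mem_filter, decide_eq_true_eq] at ht
    rcases t with ⟨tV, tA⟩
    simp only at ht ⊢
    rw [← ht.2.1]
    exact ht.1

lemma resp_sub (T : List (ℕ × ℕ)) (V : ℕ) (p : ℕ) : sub p (resp T V p) := by
  rcases resp_cases T V p with h | ⟨t, -, -, h1, h3⟩
  · rw [h]; exact sub_refl _
  · rw [h3]; exact h1

lemma St2_succ_sub (s e : ℕ) : sub (St2 B c s e) (St2 B c (s + 1) e) := by
  rw [St2]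
  unfold nxt2
  cases fnd B e s with
  | none => exact sub_refl _
  | some T => exact resp_sub _ _ _

lemma St2_mono {s s' : ℕ} (h : s ≤ s') (e : ℕ) : sub (St2 B c s e) (St2 B c s' e) := by
  induction s', h using Nat.le_induction with
  | base => exact sub_refl _
  | succ n _ ih => exact sub_trans ih (St2_succ_sub n e)

lemma testBit_env2 {e s i : ℕ} {S : ℕ → ℕ} : (env2 B c e s S).testBit i = true ↔
    i < 2 ^ (b1 B e + 1) ∧ ((Code.evaln s c (encode (str i))).isSome = true ∨
    (i < 2 ^ (b0 B e + 1) ∧ ∃ e' < e, (S e').testBit i = true)) := by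
  unfold env2
  rw [testBit_mask]
  simp

lemma env2_mono {s s' : ℕ} (h : s ≤ s') (e : ℕ) :
    sub (env2 B c e s (St2 B c s)) (env2 B c e s' (St2 B c s')) := by
  rw [sub_iff']
  intro i hi
  rw [testBit_env2] at hi ⊢
  refine ⟨hi.1, ?_⟩
  rcases hi.2 with h1 | ⟨h1, e', he', h2⟩
  · exact Or.inl (evaln_isSome_mono h h1)
  · exact Or.inr ⟨h1, e', he', sub_iff'.1 (St2_mono h e') i h2⟩

lemma env2_legal (hNV : ∀ m (S : Finset (List Bool)), (∀ y ∈ S, y.length = m ∧ NV c y) →
    32 * S.card ≤ 2 ^ m) (e s : ℕ) (S : ℕ → ℕ) :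
    legal (b0 B e) (b1 B e) (env2 B c e s S) := by
  refine ⟨mask_lt _ _, fun m _ hm => ?_⟩
  have := hNV m ((bs (env2 B c e s S) ∩ Finset.Ico (2 ^ m) (2 ^ (m + 1))).image str) ?_
  · rw [Finset.card_image_of_injOn] at this
    · exact this
    · intro i hi j hj h
      have hi' := (Finset.mem_Ico.1 (Finset.mem_inter.1 (Finset.mem_coe.1 hi)).2).1
      have hj' := (Finset.mem_Ico.1 (Finset.mem_inter.1 (Finset.mem_coe.1 hj)).2).1
      have hp : 0 < 2 ^ m := by positivity
      exact str_injOn (show i ≠ 0 by omega) (show j ≠ 0 by omega) h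
  · intro y hy
    rw [Finset.mem_image] at hy
    obtain ⟨i, hi, rfl⟩ := hy
    rw [Finset.mem_inter, mem_bs, testBit_env2, Finset.mem_Ico] at hi
    obtain ⟨⟨h1, h2⟩, h3, h4⟩ := hi
    have hp : 0 < 2 ^ m := by positivity
    refine ⟨?_, ?_⟩
    · rw [str_length]
      exact (Nat.log_eq_iff (Or.inr ⟨by norm_num, by omega⟩)).2 ⟨h3, h4⟩
    · rw [NV_iff]
      rcases h2 with h2 | ⟨h2, -⟩
      · exact ⟨s, h2⟩
      · exfalso
        have : 2 ^ (b0 B e + 1) ≤ 2 ^ m := Nat.pow_le_pow_right (by norm_num) (by omega)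
        omega

/-- invariant of the builder sets -/
lemma St2_range (s e : ℕ) :
    (∀ i, (St2 B c s e).testBit i = true → 2 ^ (b0 B e + 1) ≤ i ∧ i < 2 ^ (b1 B e + 1)) ∧
    (∀ m < b1 B e + 1, 4 * cnt (St2 B c s e) m ≤ 2 ^ m) := by
  induction s with
  | zero =>
    constructor
    · intro i hi
      simp [St2] at hi
    · intro m _
      have : bs 0 = ∅ := by
        ext i; simp
      simp [St2, cnt, this]
  | succ s ih =>
    rw [St2]
    unfold nxt2
    cases h : fnd B e s with
    | none => exact ih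
    | some k =>
      simp only [Option.map_some, Option.getD_some]
      rcases resp_cases (dc k).2.2 (env2 B c e s (St2 B c s)) (St2 B c s e) with
        h1 | ⟨t, ht, -, -, h1⟩
      · rw [h1]; exact ih
      · rw [h1]
        obtain ⟨hk, -⟩ := fnd_spec h
        obtain ⟨g1, g2, -⟩ := hk.1 t ht
        refine ⟨fun i hi => ?_, g2⟩
        have hlt : i < t.2 :=
          lt_of_lt_of_le Nat.lt_two_pow_self (Nat.ge_two_pow_of_testBit hi)
        exact g1 i hlt hi

/-- the set enumerated by the builder -/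
def Wset2 (B : ℕ → ℕ) (c : Code) (y : List Bool) : Prop :=
  ∃ e s, (St2 B c s e).testBit (num y) = true

lemma table_step2 (hNV : ∀ m (S : Finset (List Bool)), (∀ y ∈ S, y.length = m ∧ NV c y) →
    32 * S.card ≤ 2 ^ m) {e s k : ℕ}
    (hT : ∀ s' ≥ s, fnd B e s' = some k) (h0 : (∀ s' ≤ s, St2 B c s' e = 0)) :
    ∀ s' ≥ s, (env2 B c e s' (St2 B c s'), St2 B c (s' + 1) e) ∈ (dc k).2.2 := by
  have hck := (fnd_spec (hT s le_rfl)).1
  intro s' hs'
  induction s', hs' using Nat.le_induction with
  | base =>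
    rw [St2]
    unfold nxt2
    rw [hT s le_rfl]
    simp only [Option.map_some, Option.getD_some]
    apply resp_mem
    obtain ⟨t, ht, htV⟩ := hck.2.1 (env2 B c e s (St2 B c s)) (mask_lt _ _) (env2_legal hNV e s _)
    refine ⟨t, ht, htV, ?_⟩
    rw [h0 s le_rfl]; exact zero_sub _
  | succ n hn ih =>
    have hst : St2 B c (n + 1 + 1) e =
        resp (dc k).2.2 (env2 B c e (n + 1) (St2 B c (n + 1))) (St2 B c (n + 1) e) := by
      rw [St2]
      unfold nxt2
      rw [hT (n + 1) (by omega)]
      rfl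
    rw [hst]
    apply resp_mem
    obtain ⟨t, ht, htV, h1⟩ := hck.2.2 _ ih (env2 B c e (n + 1) (St2 B c (n + 1))) (mask_lt _ _)
      (env2_mono (Nat.le_succ n) e) (env2_legal hNV e (n + 1) _)
    exact ⟨t, ht, htV, h1⟩

lemma St2_zero_of_none {e s : ℕ} (h : ∀ s' < s, fnd B e s' = Option.none) :
    ∀ s' ≤ s, St2 B c s' e = 0 := by
  intro s' hs'
  induction s' with
  | zero => rfl
  | succ n ih =>
    rw [St2]
    unfold nxt2
    rw [h n (by omega)]
    simp only [Option.map_none, Option.getD_none]
    exact ih (by omega)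

/-- a satisfied requirement in the limit -/
theorem requirement2 (hNV : ∀ m (S : Finset (List Bool)), (∀ y ∈ S, y.length = m ∧ NV c y) →
    32 * S.card ≤ 2 ^ m) {e qb : ℕ} {q : List Bool → List (List Bool)}
    {g : List Bool → List Bool → Bool} (hqb : 1 ≤ qb) (h512 : 512 * qb ^ 2 ≤ 2 ^ b0 B e)
    (hlen : ∀ x : List Bool, x.length = 4 * b0 B e → (q x).length ≤ qb)
    (hq : ∀ x, ∃ r ∈ (cq e).eval (encode x), dq r = q x)
    (hg : ∀ (x : List Bool) (ans : List Bool), ∃ r ∈ (cg e).eval (encode (x, ans)),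
      db r = g x ans)
    (hlong : ∀ x : List Bool, x.length = 4 * b0 B e → ∀ y ∈ q x, b1 B e < y.length → NV c y)
    (hb1 : 2 * b0 B e ≤ b1 B e) :
    ∃ k, win B e k ∧ (∀ k' < k, ¬ win B e k') ∧ ∃ x : List Bool, x.length = 4 * b0 B e ∧
      ∀ (dec : ∀ y, Decidable (¬ (NV c y ∨ Wset2 B c y))),
      g x ((q x).map (fun y => decide (¬ (NV c y ∨ Wset2 B c y)))) =
        !((dc k).2.1.testBit (num x)) := by
  classical
  obtain ⟨s0', H0, T0, hck0⟩ := check_exists2 (e := e) (a0 := b0 B e) (a1 := b1 B e)
    (by have := b0_pos B e; omega) hb1 hqb h512 hlen hq hg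
  have hw0 : win B e (encode (s0', H0, T0)) := by
    unfold win
    rw [dc_encode]
    exact hck0
  obtain ⟨s1, k1, hf1⟩ := fnd_exists hw0
  -- first stage
  have hex : ∃ s, (fnd B e s).isSome = true := ⟨s1, by rw [hf1]; rfl⟩
  obtain ⟨k, hk⟩ := Option.isSome_iff_exists.1 (Nat.find_spec hex)
  set s0 := Nat.find hex with hs0
  have hTall : ∀ s' ≥ s0, fnd B e s' = some k := fun s' hs' => fnd_mono hs' hk
  have hnone : ∀ s' < s0, fnd B e s' = Option.none := fun s' hs' => by
    have := Nat.find_min hex hs'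
    simpa using this
  obtain ⟨hck, hmin⟩ := fnd_spec hk
  have hmem := table_step2 hNV hTall (St2_zero_of_none (c := c) hnone)
  refine ⟨k, hck, hmin, ?_⟩
  -- stabilisation
  have hV : ∃ s2, ∀ s ≥ s2, env2 B c e s (St2 B c s) = env2 B c e s2 (St2 B c s2) :=
    eventually_const (f := fun s => env2 B c e s (St2 B c s))
      (fun s s' h => sub_le (env2_mono h e))
      (b := 2 ^ 2 ^ (b1 B e + 1)) (fun s => (mask_lt _ _).le)
  have hA : ∃ s2, ∀ s ≥ s2, St2 B c s e = St2 B c s2 e :=
    eventually_const (f := fun s => St2 B c s e) (fun s s' h => sub_le (St2_mono h e))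
      (b := 2 ^ 2 ^ (b1 B e + 1)) (fun s => (lt_two_pow_of_bits fun i hi =>
        ((St2_range s e).1 i hi).2).le)
  obtain ⟨sV, hsV⟩ := hV
  obtain ⟨sA, hsA⟩ := hA
  set s := max s0 (max sV sA) with hs
  have hs_0 : s0 ≤ s := le_max_left _ _
  have hs_V : sV ≤ s := (le_max_left _ _).trans (le_max_right _ _)
  have hs_A : sA ≤ s := (le_max_right _ _).trans (le_max_right _ _)
  have hfin := hmem s hs_0
  have hstA : St2 B c (s + 1) e = St2 B c sA e := hsA (s + 1) (by omega)
  have hstV : env2 B c e s (St2 B c s) = env2 B c e sV (St2 B c sV) := hsV s hs_V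
  obtain ⟨-, -, i, hi1, hi2, hF⟩ := hck.1 _ hfin
  simp only at hF
  have hi0 : i ≠ 0 := by
    have : 0 < 2 ^ (4 * b0 B e) := by positivity
    omega
  have hlenx : (str i).length = 4 * b0 B e := by
    rw [str_length]
    exact (Nat.log_eq_iff (Or.inr ⟨by norm_num, hi0⟩)).2 ⟨hi2, hi1⟩
  refine ⟨str i, hlenx, fun dec => ?_⟩
  -- soundness of Fev2
  unfold Fev2 at hF
  rw [Option.bind_eq_some_iff] at hF
  obtain ⟨r, hr, hF⟩ := hF
  obtain ⟨r0, hr0, hdr0⟩ := hq (str i)
  have hr' : r = r0 := Part.mem_unique (Code.evaln_sound hr) hr0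
  subst hr'
  rw [hdr0, Option.map_eq_some_iff] at hF
  obtain ⟨r, hr2, hF⟩ := hF
  obtain ⟨r1, hr1, hdr1⟩ := hg (str i)
    (ansv (2 ^ (b1 B e + 1)) (env2 B c e s (St2 B c s)) (St2 B c (s + 1) e) (q (str i)))
  have hr' : r = r1 := Part.mem_unique (Code.evaln_sound hr2) hr1
  subst hr'
  rw [hdr1] at hF
  rw [num_str hi0, ← hF]
  congr 1
  unfold ansv
  apply List.map_congr_left
  intro y hy
  rw [Bool.eq_iff_iff, decide_eq_true_eq, decide_eq_true_eq]
  by_cases hly : b1 B e < y.length
  · have h1 : ¬ num y < 2 ^ (b1 B e + 1) := by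
      have h2 := (num_bounds y).1
      have h3 : 2 ^ (b1 B e + 1) ≤ 2 ^ y.length := Nat.pow_le_pow_right (by norm_num) hly
      omega
    have h2 := hlong _ hlenx y hy hly
    tauto
  · have h1 : num y < 2 ^ (b1 B e + 1) := by
      have h2 := (num_bounds y).2
      have h3 : 2 ^ (y.length + 1) ≤ 2 ^ (b1 B e + 1) :=
        Nat.pow_le_pow_right (by norm_num) (by omega)
      omega
    have key : (NV c y ∨ Wset2 B c y) ↔ ((env2 B c e s (St2 B c s)).testBit (num y) = true ∨
        (St2 B c (s + 1) e).testBit (num y) = true) := by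
      constructor
      · rintro (h | ⟨e', s', h⟩)
        · left
          obtain ⟨s', hs'⟩ := (NV_iff y).1 h
          have h2 : (env2 B c e (max s' s) (St2 B c (max s' s))).testBit (num y) = true := by
            rw [testBit_env2]
            refine ⟨h1, Or.inl ?_⟩
            rw [str_num]
            exact evaln_isSome_mono (le_max_left _ _) hs'
          rw [hstV, ← hsV (max s' s) (hs_V.trans (le_max_right _ _))]
          exact h2
        · rcases lt_trichotomy e' e with he | he | he
          · left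
            have h2 : (env2 B c e (max s' s) (St2 B c (max s' s))).testBit (num y) = true := by
              rw [testBit_env2]
              refine ⟨h1, Or.inr ⟨?_, e', he, sub_iff'.1 (St2_mono (le_max_left _ _) e') _ h⟩⟩
              have h3 := ((St2_range s' e').1 _ h).2
              have h4 : b1 B e' ≤ b0 B e := (b0_strictMono B).monotone (by omega)
              exact lt_of_lt_of_le h3 (Nat.pow_le_pow_right (by norm_num) (by omega))
            rw [hstV, ← hsV (max s' s) (hs_V.trans (le_max_right _ _))]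
            exact h2
          · right
            subst he
            have h3 := sub_iff'.1 (St2_mono (B := B) (c := c) (le_max_left s' (s + 1)) e') _ h
            rw [hsA (max s' (s + 1)) ((show sA ≤ s + 1 by omega).trans (le_max_right _ _))] at h3
            rw [hstA]
            exact h3
          · exfalso
            have h3 := ((St2_range s' e').1 _ h).1
            have h4 : b1 B e ≤ b0 B e' := (b0_strictMono B).monotone (by omega)
            have h5 : 2 ^ (b1 B e + 1) ≤ 2 ^ (b0 B e' + 1) :=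
              Nat.pow_le_pow_right (by norm_num) (by omega)
            omega
      · rintro (h | h)
        · rw [testBit_env2] at h
          rcases h.2 with h2 | ⟨-, e', -, h2⟩
          · left
            rw [str_num] at h2
            exact (NV_iff y).2 ⟨_, h2⟩
          · right
            exact ⟨e', s, h2⟩
        · right
          exact ⟨e, s + 1, h⟩
    rw [key]
    tauto

/-- at most a quarter of the strings of each length are enumerated by the builder -/
lemma W_count2 (m : ℕ) (S : Finset (List Bool)) (hS : ∀ y ∈ S, y.length = m ∧ Wset2 B c y) :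
    4 * S.card ≤ 2 ^ m := by
  classical
  rcases S.eq_empty_or_nonempty with h0 | ⟨y0, hy0⟩
  · subst h0; simp
  -- all witnesses have the same requirement
  obtain ⟨hm0, e0, s00, hb0⟩ := hS y0 hy0
  have huniq : ∀ y ∈ S, ∃ s, (St2 B c s e0).testBit (num y) = true := by
    intro y hy
    obtain ⟨hm, e, s, hb⟩ := hS y hy
    have hee : e = e0 := by
      by_contra hne
      have r1 := (St2_range s e).1 _ hb
      have r2 := (St2_range s00 e0).1 _ hb0
      have n1 := num_bounds y
      have n2 := num_bounds y0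
      rw [hm] at n1
      rw [hm0] at n2
      have p1 : b0 B e < m := by
        by_contra hcon
        have : 2 ^ (m + 1) ≤ 2 ^ (b0 B e + 1) := Nat.pow_le_pow_right (by norm_num) (by omega)
        omega
      have p2 : m ≤ b1 B e := by
        by_contra hcon
        have : 2 ^ (b1 B e + 1) ≤ 2 ^ m := Nat.pow_le_pow_right (by norm_num) (by omega)
        omega
      have p3 : b0 B e0 < m := by
        by_contra hcon
        have : 2 ^ (m + 1) ≤ 2 ^ (b0 B e0 + 1) := Nat.pow_le_pow_right (by norm_num) (by omega)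
        omega
      have p4 : m ≤ b1 B e0 := by
        by_contra hcon
        have : 2 ^ (b1 B e0 + 1) ≤ 2 ^ m := Nat.pow_le_pow_right (by norm_num) (by omega)
        omega
      rcases Nat.lt_or_gt_of_ne hne with h | h
      · have : b1 B e ≤ b0 B e0 := (b0_strictMono B).monotone (by omega)
        omega
      · have : b1 B e0 ≤ b0 B e := (b0_strictMono B).monotone (by omega)
        omega
    exact ⟨s, hee ▸ hb⟩
  choose! f hf using huniq
  set s := S.sup f
  have hall : ∀ y ∈ S, (St2 B c s e0).testBit (num y) = true := fun y hy =>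
    sub_iff'.1 (St2_mono (Finset.le_sup hy) e0) _ (hf y hy)
  have hsub : S.image num ⊆ bs (St2 B c s e0) ∩ Finset.Ico (2 ^ m) (2 ^ (m + 1)) := by
    intro i hi
    rw [Finset.mem_image] at hi
    obtain ⟨y, hy, rfl⟩ := hi
    rw [Finset.mem_inter, mem_bs, Finset.mem_Ico]
    have := num_bounds y
    rw [(hS y hy).1] at this
    exact ⟨hall y hy, this⟩
  have hcard := Finset.card_le_card hsub
  rw [Finset.card_image_of_injective _ num_injective] at hcard
  have hm1 : m < b1 B e0 + 1 := by
    by_contra hcon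
    have r2 := (St2_range s00 e0).1 _ hb0
    have n2 := num_bounds y0
    rw [hm0] at n2
    have : 2 ^ (b1 B e0 + 1) ≤ 2 ^ m := Nat.pow_le_pow_right (by norm_num) (by omega)
    omega
  have := (St2_range (B := B) (c := c) s e0).2 m hm1
  unfold cnt at this
  omega

end

end Pool.Agent.LibComp86
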