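import Mathlib
import Pool.Agent.LibRandTT.Comp
import Pool.Agent.LibComp86.Dyn2

/-!
The construction is effective, and the set of inputs with role `true` is computable.
-/

namespace Pool.Agent.LibComp86

open Nat.Partrec Encodable Denumerable Pool.Agent.LibRandTT

section

variable {B : ℕ → ℕ} {c : Code}

lemma primrec_b0 (hB : Primrec B) : Primrec (b0 B) := by
  have h : Primrec fun n : ℕ => (Nat.rec 100 (fun e r => 8 * r + B e) n : ℕ) :=
    Primrec.nat_rec' (f := fun n : ℕ => n) (g := fun _ => 100)
      (h := fun (_ : ℕ) (p : ℕ × ℕ) => 8 * p.2 + B p.1) Primrec.id (Primrec.const 100)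
      (Primrec.nat_add.comp (Primrec.nat_mul.comp (Primrec.const 8)
        (Primrec.snd.comp Primrec.snd)) (hB.comp (Primrec.fst.comp Primrec.snd))).to₂
  refine h.of_eq fun n => ?_
  induction n with
  | zero => rfl
  | succ n ih => rw [b0, ← ih]

lemma primrec_b1 (hB : Primrec B) : Primrec (b1 B) := (primrec_b0 hB).comp Primrec.succ

lemma primrec_dc : Primrec dc := Primrec.option_getD.comp Primrec.decode (Primrec.const _)

lemma primrec_win (hB : Primrec B) {α : Type} [Primcodable α] {e k : α → ℕ} (he : Primrec e)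
    (hk : Primrec k) : PrimrecPred fun a => win B (e a) (k a) := by
  unfold win
  have hd : Primrec fun a => dc (k a) := primrec_dc.comp hk
  exact primrec_check2 ((primrec_b0 hB).comp he) ((primrec_b1 hB).comp he) he
    (Primrec.fst.comp hd) (Primrec.fst.comp (Primrec.snd.comp hd))
    (Primrec.snd.comp (Primrec.snd.comp hd))

lemma primrec_fnd (hB : Primrec B) : Primrec₂ (fnd B) := by
  classical
  unfold fnd
  refine Primrec.list_head?.comp (PP.filter (p := fun (a : ℕ × ℕ) k => win B a.1 k)
    (Primrec.list_range.comp Primrec.snd) ?_)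
  exact primrec_win hB (Primrec.fst.comp Primrec.fst) Primrec.snd

lemma primrec_resp {α : Type} [Primcodable α] {T : α → List (ℕ × ℕ)} {V : α → ℕ}
    {p : α → ℕ} (hT : Primrec T) (hV : Primrec V) (hp : Primrec p) :
    Primrec fun a => resp (T a) (V a) (p a) := by
  classical
  unfold resp
  refine Primrec.option_getD.comp (Primrec.list_head?.comp (Primrec.list_map
    (PP.filter (p := fun a (t : ℕ × ℕ) => t.1 = V a ∧ sub (p a) t.2) hT ?_) ?_)) hp
  · exact (PP.eq (Primrec.fst.comp Primrec.snd) (hV.comp Primrec.fst)).and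
      (primrecRel_sub.comp (hp.comp Primrec.fst) (Primrec.snd.comp Primrec.snd))
  · exact (Primrec.snd.comp Primrec.snd)

/-- states read from a list -/
def rd2 (L : List ℕ) (e : ℕ) : ℕ := L.getD e 0

lemma primrec_rd2 : Primrec₂ rd2 := Primrec.list_getD 0

lemma primrec_env2 (hB : Primrec B) {α : Type} [Primcodable α] {e s : α → ℕ}
    {L : α → List ℕ} (he : Primrec e) (hs : Primrec s) (hL : Primrec L) :
    Primrec fun a => env2 B c (e a) (s a) (rd2 (L a)) := by
  classical
  unfold env2
  refine primrec_mask (primrec_pow2 (Primrec.succ.comp ((primrec_b1 hB).comp he))) ?_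
  have : PrimrecPred fun q : α × ℕ =>
      (Code.evaln (s q.1) c (encode (str q.2))).isSome = true ∨
      (q.2 < 2 ^ (b0 B (e q.1) + 1) ∧ ∃ e' < e q.1, (rd2 (L q.1) e').testBit q.2 = true) := by
    refine PrimrecPred.or (PP.eq (Primrec.option_isSome.comp (primrec_evaln'
      (hs.comp Primrec.fst) (Primrec.const c)
      (Primrec.encode.comp (primrec_str.comp Primrec.snd)))) (Primrec.const true)) ?_
    refine (PP.lt Primrec.snd (primrec_pow2 (Primrec.succ.comp ((primrec_b0 hB).comp
      (he.comp Primrec.fst))))).and ?_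
    refine PP.exists_lt (f := fun q : α × ℕ => e q.1)
      (p := fun q e' => (rd2 (L q.1) e').testBit q.2 = true) (he.comp Primrec.fst) ?_
    exact PP.testBit (primrec_rd2.comp (hL.comp (Primrec.fst.comp Primrec.fst))
      Primrec.snd) (Primrec.snd.comp Primrec.fst)
  exact this.decide

lemma primrec_nxt2 (hB : Primrec B) {α : Type} [Primcodable α] {e s : α → ℕ}
    {L : α → List ℕ} (he : Primrec e) (hs : Primrec s) (hL : Primrec L) :
    Primrec fun a => nxt2 B c (e a) (s a) (rd2 (L a)) := by
  unfold nxt2
  refine Primrec.option_getD.comp (Primrec.option_map ((primrec_fnd hB).comp he hs) ?_)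
    (primrec_rd2.comp hL he)
  exact primrec_resp (Primrec.snd.comp (Primrec.snd.comp (primrec_dc.comp Primrec.snd)))
    (primrec_env2 hB (he.comp Primrec.fst) (hs.comp Primrec.fst) (hL.comp Primrec.fst))
    (primrec_rd2.comp (hL.comp Primrec.fst) (he.comp Primrec.fst))

lemma nxt2_congr {e s : ℕ} {S S' : ℕ → ℕ} (h : ∀ e' ≤ e, S e' = S' e') :
    nxt2 B c e s S = nxt2 B c e s S' := by
  classical
  have h1 : env2 B c e s S = env2 B c e s S' := by
    apply eq_of_testBit
    intro i
    rw [testBit_env2, testBit_env2]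
    have : (∃ e' < e, (S e').testBit i = true) ↔ (∃ e' < e, (S' e').testBit i = true) := by
      constructor
      · rintro ⟨e', he', h2⟩; exact ⟨e', he', by rw [← h e' he'.le]; exact h2⟩
      · rintro ⟨e', he', h2⟩; exact ⟨e', he', by rw [h e' he'.le]; exact h2⟩
    rw [this]
  unfold nxt2
  rw [h1, h e le_rfl]

/-- list of the first `E` states at stage `s` -/
noncomputable def stt2 (B : ℕ → ℕ) (c : Code) (s E : ℕ) : List ℕ :=
  (List.range E).map (St2 B c s)

lemma rd2_stt2 {s E e : ℕ} (h : e < E) : rd2 (stt2 B c s E) e = St2 B c s e := by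
  unfold rd2 stt2
  rw [List.getD_eq_getElem?_getD, List.getElem?_map, List.getElem?_range h]
  rfl

lemma primrec_stt2 (hB : Primrec B) : Primrec₂ (stt2 B c) := by
  have h : Primrec fun p : ℕ × ℕ => (Nat.rec ((List.range p.2).map (fun _ => 0))
      (fun s L => (List.range p.2).map (fun e => nxt2 B c e s (rd2 L))) p.1 : List ℕ) := by
    refine Primrec.nat_rec' (f := fun p : ℕ × ℕ => p.1)
      (g := fun p => (List.range p.2).map (fun _ => 0))
      (h := fun (p : ℕ × ℕ) (q : ℕ × List ℕ) =>
        (List.range p.2).map (fun e => nxt2 B c e q.1 (rd2 q.2))) Primrec.fst ?_ ?_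
    · exact Primrec.list_map (Primrec.list_range.comp Primrec.snd) (Primrec.const _).to₂
    · refine Primrec.list_map (Primrec.list_range.comp (Primrec.snd.comp Primrec.fst)) ?_
      exact primrec_nxt2 hB Primrec.snd (Primrec.fst.comp (Primrec.snd.comp Primrec.fst))
        (Primrec.snd.comp (Primrec.snd.comp Primrec.fst))
  refine h.of_eq fun p => ?_
  rcases p with ⟨s, E⟩
  simp only
  induction s with
  | zero => rfl
  | succ s ih =>
    simp only [ih]
    unfold stt2
    apply List.map_congr_left
    intro e he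
    rw [List.mem_range] at he
    rw [St2]
    apply nxt2_congr
    intro e' he'
    exact rd2_stt2 (lt_of_le_of_lt he' he)

lemma primrec_St2 (hB : Primrec B) : Primrec₂ (St2 B c) := by
  have : Primrec fun p : ℕ × ℕ => rd2 (stt2 B c p.1 (p.2 + 1)) p.2 :=
    primrec_rd2.comp ((primrec_stt2 hB).comp Primrec.fst (Primrec.succ.comp Primrec.snd))
      Primrec.snd
  refine this.of_eq fun p => ?_
  exact rd2_stt2 (Nat.lt_succ_self _)

lemma Wset2_re (hB : Primrec B) : REPred (Wset2 B c) := by
  have h : REPred fun y => ∃ n : ℕ, (St2 B c n.unpair.1 n.unpair.2).testBit (num y) = true := by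
    apply rePred_of_exists
    exact PP.testBit ((primrec_St2 hB).comp
      (Primrec.fst.comp (Primrec.unpair.comp Primrec.snd))
      (Primrec.snd.comp (Primrec.unpair.comp Primrec.snd))) (primrec_num.comp Primrec.fst)
  refine h.of_eq fun y => ?_
  unfold Wset2
  constructor
  · rintro ⟨n, hn⟩; exact ⟨_, _, hn⟩
  · rintro ⟨e, s, h⟩; exact ⟨Nat.pair s e, by simpa using h⟩

/-! ### the computable set -/

/-- the search for requirement `e` stops at `k` -/
def stop (B : ℕ → ℕ) (e k : ℕ) : Prop := ¬ valid e ∨ win B e k ∨ many (b0 B e) e k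

lemma stop_exists (hb : ∀ e, 2 * b0 B e ≤ b1 B e) (e : ℕ) : ∃ k, stop B e k := by
  by_cases hv : valid e
  · -- the functions given by the codes
    set q : List Bool → List (List Bool) := fun x =>
      dq (((cq e).eval (encode x)).get (isPR_total hv.1 _)) with hq
    set g : List Bool → List Bool → Bool := fun x ans =>
      db (((cg e).eval (encode (x, ans))).get (isPR_total hv.2 _)) with hg
    by_cases hf : ∀ x : List Bool, x.length = 4 * b0 B e → 512 * (q x).length ^ 2 ≤ 2 ^ b0 B e
    · have h0 := b0_pos B e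
      have hlen : ∀ x : List Bool, x.length = 4 * b0 B e →
          (q x).length ≤ Nat.sqrt (2 ^ (b0 B e - 9)) := by
        intro x hx
        rw [Nat.le_sqrt']
        have h1 := hf x hx
        have e1 : 2 ^ b0 B e = 512 * 2 ^ (b0 B e - 9) := by
          rw [show (512 : ℕ) = 2 ^ 9 by norm_num, ← pow_add]; congr 1; omega
        rw [e1] at h1
        exact Nat.le_of_mul_le_mul_left h1 (by norm_num)
      have hqb1 : 1 ≤ Nat.sqrt (2 ^ (b0 B e - 9)) := by
        rw [Nat.le_sqrt']
        simpa using Nat.one_le_two_pow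
      have h512 : 512 * (Nat.sqrt (2 ^ (b0 B e - 9))) ^ 2 ≤ 2 ^ b0 B e := by
        have h1 := Nat.sqrt_le' (2 ^ (b0 B e - 9))
        have e1 : 2 ^ b0 B e = 512 * 2 ^ (b0 B e - 9) := by
          rw [show (512 : ℕ) = 2 ^ 9 by norm_num, ← pow_add]; congr 1; omega
        rw [e1]
        exact Nat.mul_le_mul_left _ h1
      obtain ⟨s, H, T, h⟩ := check_exists2 (e := e) (a0 := b0 B e) (a1 := b1 B e) (q := q)
        (g := g) (by omega) (hb e) hqb1 h512 hlen
        (fun x => ⟨_, Part.get_mem _, rfl⟩) (fun x ans => ⟨_, Part.get_mem _, rfl⟩)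
      refine ⟨encode (s, H, T), Or.inr (Or.inl ?_)⟩
      unfold win
      rw [dc_encode]
      exact h
    · push Not at hf
      obtain ⟨x, hx, hlt⟩ := hf
      obtain ⟨s, hs⟩ := evaln_eq_some (Part.get_mem (isPR_total hv.1 (encode x)))
      refine ⟨s, Or.inr (Or.inr ⟨num x, ?_, ?_, ?_⟩)⟩
      · rw [← hx]; exact (num_bounds x).2
      · rw [← hx]; exact (num_bounds x).1
      · rw [str_num, hs s le_rfl, Option.map_some, decide_eq_true hlt]
  · exact ⟨0, Or.inl hv⟩

/-- the set of inputs with role `true` -/
def Aset (B : ℕ → ℕ) (x : List Bool) : Prop :=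
  ∃ e, x.length = 4 * b0 B e ∧ valid e ∧ ∃ k, (stop B e k ∧ ∀ k' < k, ¬ stop B e k') ∧
    win B e k ∧ (dc k).2.1.testBit (num x) = true

lemma primrec_stop (hB : Primrec B) : PrimrecRel (stop B) := by
  unfold stop
  exact (primrec_valid.comp Primrec.fst).not.or ((primrec_win hB Primrec.fst Primrec.snd).or
    (primrec_many ((primrec_b0 hB).comp Primrec.fst) Primrec.fst Primrec.snd))

open Classical in
lemma exists_stopfun (hB : Primrec B) (hb : ∀ e, 2 * b0 B e ≤ b1 B e) :
    ∃ K : ℕ → ℕ, Computable K ∧ ∀ e, stop B e (K e) ∧ ∀ k' < K e, ¬ stop B e k' := by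
  refine ⟨fun e => Nat.find (stop_exists hb e), ?_, fun e => ⟨Nat.find_spec (stop_exists hb e),
    fun k' hk' => Nat.find_min _ hk'⟩⟩
  have h : Partrec fun e : ℕ => Nat.rfind fun n =>
      (Part.some (decide (stop B e n)) : Part Bool) :=
    Partrec.rfind ((primrec_stop hB).decide.to_comp).partrec₂
  refine h.of_eq_tot fun e => ?_
  rw [Nat.mem_rfind]
  constructor
  · simpa using Nat.find_spec (stop_exists hb e)
  · intro m hm
    simpa using Nat.find_min (stop_exists hb e) hm

theorem Aset_computable (hB : Primrec B) (hb : ∀ e, 2 * b0 B e ≤ b1 B e) :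
    ComputablePred (Aset B) := by
  classical
  obtain ⟨K, hK, hK2⟩ := exists_stopfun hB hb
  set E : List Bool → ℕ := fun x => (((List.range (x.length + 1)).filter
    (fun e => decide (x.length = 4 * b0 B e))).head?).getD 0 with hE
  have hEp : Primrec E := by
    refine Primrec.option_getD.comp (Primrec.list_head?.comp (PP.filter
      (p := fun (x : List Bool) e => x.length = 4 * b0 B e)
      (Primrec.list_range.comp (Primrec.succ.comp Primrec.list_length)) ?_)) (Primrec.const 0)
    exact PP.eq (Primrec.list_length.comp Primrec.fst) (Primrec.nat_mul.comp (Primrec.const 4)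
      ((primrec_b0 hB).comp Primrec.snd))
  have hE2 : ∀ x e, x.length = 4 * b0 B e → E x = e := by
    intro x e h
    have h1 : ∃ e', E x = e' ∧ x.length = 4 * b0 B e' := by
      simp only [hE]
      cases h' : ((List.range (x.length + 1)).filter
        (fun e => decide (x.length = 4 * b0 B e))).head? with
      | none =>
        exfalso
        rw [List.head?_eq_none_iff, List.filter_eq_nil_iff] at h'
        have := h' e (by
          rw [List.mem_range]
          have := b0_ge B e
          omega)
        simp [h] at this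
      | some r =>
        have h2 := List.mem_of_mem_head? (Option.mem_def.2 h')
        rw [List.mem_filter, decide_eq_true_eq] at h2
        exact ⟨r, rfl, h2.2⟩
    obtain ⟨e', h2, h3⟩ := h1
    rw [h2]
    exact (b0_strictMono B).injective (by omega)
  -- the decision procedure
  have hD : PrimrecPred fun p : List Bool × ℕ => p.1.length = 4 * b0 B (E p.1) ∧ valid (E p.1) ∧
      win B (E p.1) p.2 ∧ (dc p.2).2.1.testBit (num p.1) = true := by
    have hE1 : Primrec fun p : List Bool × ℕ => E p.1 := hEp.comp Primrec.fst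
    exact (PP.eq (Primrec.list_length.comp Primrec.fst) (Primrec.nat_mul.comp (Primrec.const 4)
      ((primrec_b0 hB).comp hE1))).and ((primrec_valid.comp hE1).and
      ((primrec_win hB hE1 Primrec.snd).and (PP.testBit (Primrec.fst.comp
        (Primrec.snd.comp (primrec_dc.comp Primrec.snd))) (primrec_num.comp Primrec.fst))))
  refine ⟨Classical.decPred _, ?_⟩
  have h1 : Computable fun x : List Bool => (x, K (E x)) :=
    Computable.id.pair (hK.comp hEp.to_comp)
  refine (hD.decide.to_comp.comp h1).of_eq fun x => ?_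
  refine decide_eq_decide.2 ?_
  simp only
  constructor
  · rintro ⟨h2, h3, h4, h5⟩
    exact ⟨E x, h2, h3, K (E x), hK2 _, h4, h5⟩
  · rintro ⟨e, h2, h3, k, hk, h4, h5⟩
    have he := hE2 x e h2
    have hkk : K (E x) = k := by
      rw [he]
      have h6 := hK2 e
      rcases lt_trichotomy (K e) k with h | h | h
      · exact absurd h6.1 (hk.2 _ h)
      · exact h
      · exact absurd hk.1 (h6.2 _ h)
    rw [hkk, he]
    exact ⟨h2, h3, h4, h5⟩

end

end Pool.Agent.LibComp86
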