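import Mathlib
import Pool.Agent.LibRandTT.Main
import Pool.Agent.LibComp86.Comp2

/-!
A universal machine and a computable set such that every primitive recursive truth-table reduction
of the set to the random strings asks exponentially many queries infinitely often.
-/

namespace Pool.Agent.LibComp86

open Nat.Partrec Encodable Denumerable Pool.Agent.LibRandTT

open Classical in
theorem main2 : ∃ U : List Bool →. List Bool, Universal U ∧
    ∃ A : Set (List Bool), (ComputablePred fun x => x ∈ A) ∧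
    ∀ (q : List Bool → List (List Bool)) (g : List Bool → List Bool → Bool),
      Primrec q → Primrec₂ g →
      (∀ x, x ∈ A ↔ g x ((q x).map fun y => decide (y ∈ RC U)) = true) →
      ∃ C : ℕ, ∀ n₀ : ℕ, ∃ x : List Bool, n₀ ≤ x.length ∧
        2 ^ x.length ≤ C * (q x).length ^ 8 := by
  obtain ⟨c, hc⟩ := exists_code_re NV0_re
  obtain ⟨cw, hcw⟩ := exists_code_re (Wset2_re (c := c) primrec_Bf)
  have hNV : ∀ m (S : Finset (List Bool)), (∀ y ∈ S, y.length = m ∧ NV c y) →
      32 * S.card ≤ 2 ^ m := fun m S hS =>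
    NV0_count m S fun y hy => ⟨(hS y hy).1, (hc y).1 (hS y hy).2⟩
  have hW : ∀ m (S : Finset (List Bool)), (∀ y ∈ S, y.length = m ∧ NV cw y) →
      4 * S.card ≤ 2 ^ m := fun m S hS =>
    W_count2 m S fun y hy => ⟨(hS y hy).1, (hcw y).1 (hS y hy).2⟩
  have hb1 : ∀ e, b1 Bf e = 8 * b0 Bf e + Bf e := fun e => rfl
  refine ⟨Um cw, Um_universal cw, {x | Aset Bf x},
    Aset_computable primrec_Bf fun e => by rw [hb1]; omega, ?_⟩
  intro q g hqp hgp hred
  by_contra hcon
  push Not at hcon
  obtain ⟨n₀, hn₀⟩ := hcon (2 ^ 36)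
  obtain ⟨c1, hv1, hc1⟩ := exists_isPR_fun hqp
  obtain ⟨c2, hv2, hc2⟩ := exists_isPR_fun (f := fun p : List Bool × List Bool => g p.1 p.2) hgp
  set e := Nat.pair (encode c1) (Nat.pair (encode c2) n₀) with he
  have hcqe : cq e = c1 := by simp [cq, he]
  have hcge : cg e = c2 := by simp [cg, he]
  have hvalid : valid e := by
    unfold valid
    rw [hcqe, hcge]
    exact ⟨hv1, hv2⟩
  have hq1 : ∀ x, encode (q x) ∈ (cq e).eval (encode x) := by
    intro x
    rw [hcqe]
    exact hc1 x
  have hq2 : ∀ x, ∃ r ∈ (cq e).eval (encode x), dq r = q x := fun x =>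
    ⟨_, hq1 x, dq_encode _⟩
  have hg2 : ∀ (x : List Bool) (ans : List Bool), ∃ r ∈ (cg e).eval (encode (x, ans)),
      db r = g x ans := by
    intro x ans
    rw [hcge]
    exact ⟨_, hc2 (x, ans), db_encode _⟩
  have hage : n₀ + 100 ≤ b0 Bf e := by
    have h1 := b0_ge Bf e
    have h2 : n₀ ≤ e := by
      rw [he]
      exact (Nat.right_le_pair _ _).trans (Nat.right_le_pair _ _)
    omega
  set a := b0 Bf e with ha
  have hfew : ∀ x : List Bool, x.length = 4 * a → 512 * (q x).length ^ 2 < 2 ^ a := by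
    intro x hx
    have h1 := hn₀ x (by omega)
    rw [hx] at h1
    by_contra hcon2
    rw [not_lt] at hcon2
    have h2 : (2 ^ a) ^ 4 ≤ (512 * (q x).length ^ 2) ^ 4 := Nat.pow_le_pow_left hcon2 4
    have h3 : (512 * (q x).length ^ 2) ^ 4 = 2 ^ 36 * (q x).length ^ 8 := by
      rw [mul_pow, ← pow_mul]
      norm_num
    have h4 : (2 ^ a) ^ 4 = 2 ^ (4 * a) := by
      rw [← pow_mul]; congr 1; omega
    omega
  have e9 : 2 ^ a = 512 * 2 ^ (a - 9) := by
    rw [show (512 : ℕ) = 2 ^ 9 by norm_num, ← pow_add]; congr 1; omega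
  have hqb : ∀ x : List Bool, x.length = 4 * a → (q x).length ≤ Nat.sqrt (2 ^ (a - 9)) := by
    intro x hx
    rw [Nat.le_sqrt']
    have h1 := hfew x hx
    rw [e9] at h1
    exact (Nat.lt_of_mul_lt_mul_left h1).le
  have hqb1 : 1 ≤ Nat.sqrt (2 ^ (a - 9)) := by
    rw [Nat.le_sqrt']
    simpa using Nat.one_le_two_pow
  have h512 : 512 * (Nat.sqrt (2 ^ (a - 9))) ^ 2 ≤ 2 ^ a := by
    have h1 := Nat.sqrt_le' (2 ^ (a - 9))
    rw [e9]
    exact Nat.mul_le_mul_left _ h1
  have hlong : ∀ x : List Bool, x.length = 4 * a → ∀ y ∈ q x, b1 Bf e < y.length → NV c y := by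
    intro x hx y hy hly
    rw [hc]
    refine long_compressible (e := e) (n := 4 * a) hq1 hx ?_ hy ?_
    · refine (hqb x hx).trans ?_
      calc Nat.sqrt (2 ^ (a - 9)) ≤ 2 ^ (a - 9) := Nat.sqrt_le_self _
        _ ≤ 2 ^ (4 * a) := Nat.pow_le_pow_right (by norm_num) (by omega)
    · rw [hb1] at hly
      omega
  obtain ⟨k, hwin, hmin, x, hx, hfail⟩ := requirement2 (B := Bf) (c := c) hNV hqb1 h512 hqb hq2
    hg2 hlong (by rw [hb1]; omega)
  have hfail' : g x ((q x).map (fun y => decide (¬ (NV c y ∨ Wset2 Bf c y)))) =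
      !((dc k).2.1.testBit (num x)) := hfail _
  -- membership of `x`
  have hA : x ∈ ({x | Aset Bf x} : Set (List Bool)) ↔ (dc k).2.1.testBit (num x) = true := by
    constructor
    · rintro ⟨e', h1, h2, k', ⟨h3, h4⟩, h5, h6⟩
      have hee : e' = e := by
        apply (b0_strictMono Bf).injective
        rw [hx] at h1
        omega
      subst hee
      have hkk : k' = k := by
        rcases lt_trichotomy k' k with h | h | h
        · exact absurd h5 (hmin _ h)
        · exact h
        · exact absurd (Or.inr (Or.inl hwin)) (h4 _ h)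
      rw [← hkk]
      exact h6
    · intro h
      refine ⟨e, hx, hvalid, k, ⟨Or.inr (Or.inl hwin), fun k' hk' hst => ?_⟩, hwin, h⟩
      rcases hst with h1 | h1 | h1
      · exact h1 hvalid
      · exact hmin _ hk' h1
      · obtain ⟨i, hi1, hi2, hi3⟩ := h1
        rw [Option.map_eq_some_iff] at hi3
        obtain ⟨r, hr, hr2⟩ := hi3
        rw [decide_eq_true_eq] at hr2
        have hr' : r = encode (q (str i)) := Part.mem_unique (Code.evaln_sound hr) (hq1 _)
        subst hr'
        rw [dq_encode] at hr2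
        have hi0 : i ≠ 0 := by
          have : 0 < 2 ^ (4 * b0 Bf e) := by positivity
          omega
        have hl : (str i).length = 4 * a := by
          rw [str_length]
          exact (Nat.log_eq_iff (Or.inr ⟨by norm_num, hi0⟩)).2 ⟨hi2, hi1⟩
        exact lt_asymm (hfew _ hl) hr2
  have hr := hred x
  have hmap : (q x).map (fun y => decide (¬ (NV c y ∨ Wset2 Bf c y))) =
      (q x).map (fun y => decide (y ∈ RC (Um cw))) := by
    apply List.map_congr_left
    intro y _
    have h1 : y ∈ RC (Um cw) ↔ ¬ (NV c y ∨ Wset2 Bf c y) := by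
      rw [nonrandom_Um hW, hcw, hc]
    exact decide_eq_decide.2 h1.symm
  rw [← hmap, hA, hfail'] at hr
  cases hb : (dc k).2.1.testBit (num x) <;> simp [hb] at hr

end Pool.Agent.LibComp86
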