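import Mathlib
import Pool.Agent.LibPtt90.Main
import Pool.Agent.LibComp86.Main2

/-!
For some universal machine, some computable set is not polynomial-time truth-table reducible to
the set of random strings.
-/

namespace Pool.Agent.LibComp86

open Pool.Agent.LibRandTT Pool.Agent.LibPtt90

open Pool.Agent.LibComplexity in
/-- polynomial-time truth-table reductions are primitive recursive truth-table reductions with
polynomially many queries -/
theorem ptt_primrec {A B : Set (List Bool)} (h : PttRed A B) :
    ∃ (q : List Bool → List (List Bool)) (g : List Bool → List Bool → Bool),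
      Primrec q ∧ Primrec₂ g ∧
      (∀ (dec : ∀ y, Decidable (y ∈ B)) x, x ∈ A ↔ g x ((q x).map fun y => decide (y ∈ B)) = true) ∧
      ∃ P : Polynomial ℕ, ∀ x, (q x).length ≤ P.eval x.length := by
  classical
  obtain ⟨f, hf, hfAB⟩ := h
  have hF : Primrec fun x => (f x).code := primrec_of_inFP hf
  refine ⟨fun x => ((f x).code.foldl (TaskN.mstep TaskN.qA id id id) (0, [], [])).2.2,
    fun x ans => (((f x).code.foldl (TaskN.mstep TaskN.gA TaskN.gN TaskN.gC TaskN.gD)
      (0, [], (ans, []))).2.2.2).headD false, ?_, ?_, ?_, ?_⟩
  · refine Primrec.snd.comp (Primrec.snd.comp (Primrec.list_foldl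
      (h := fun (_ : List Bool) (p : (ℕ × List Bool × List (List Bool)) × Bool) =>
        TaskN.mstep TaskN.qA id id id p.1 p.2) hF
        (Primrec.const ((0, [], []) : ℕ × List Bool × List (List Bool))) ?_))
    exact (TaskN.primrec_mstep TaskN.primrec_qA Primrec.id Primrec.id Primrec.id).comp
      (Primrec.fst.comp Primrec.snd) (Primrec.snd.comp Primrec.snd)
  · refine TaskN.primrec_headD (Primrec.snd.comp (Primrec.snd.comp (Primrec.snd.comp
      (Primrec.list_foldl
      (h := fun (_ : List Bool × List Bool)
        (p : (ℕ × List Bool × (List Bool × List Bool)) × Bool) =>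
        TaskN.mstep TaskN.gA TaskN.gN TaskN.gC TaskN.gD p.1 p.2)
      (hF.comp Primrec.fst) ((Primrec.const 0).pair ((Primrec.const []).pair
        (Primrec.snd.pair (Primrec.const [])))) ?_))))
    exact (TaskN.primrec_mstep TaskN.primrec_gA TaskN.primrec_gN TaskN.primrec_gC
      TaskN.primrec_gD).comp (Primrec.fst.comp Primrec.snd) (Primrec.snd.comp Primrec.snd)
  · intro dec x
    simp only
    rw [TaskN.foldl_code, TaskN.foldl_code]
    simp only
    rw [TaskN.run_atoms, List.nil_append]
    have h1 := TaskN.run_eval B (f x) [] []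
    rw [List.append_nil] at h1
    have h2 : ((TaskN.atoms (f x)).map fun y => @decide (y ∈ B) (dec y)) =
        (TaskN.atoms (f x)).map fun y => @decide (y ∈ B) (Classical.propDecidable _) := by
      apply List.map_congr_left
      intro y _
      exact decide_eq_decide.2 Iff.rfl
    rw [h2, h1, hfAB x]
    simp
  · rw [inFP_iff] at hf
    obtain ⟨Q, hQ⟩ := hf.size_le
    refine ⟨Q.comp (4 * Polynomial.X + 1), fun x => ?_⟩
    simp only
    rw [TaskN.foldl_code]
    simp only
    rw [TaskN.run_atoms, List.nil_append]
    have h1 := TaskN.length_atoms (f x)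
    have h2 := length_le_sz (f x).code
    have h3 := hQ ∅ (Set.mem_singleton _) x
    have h4 := peval_mono Q (sz_word_le x)
    rw [Polynomial.eval_comp]
    have h5 : (4 * Polynomial.X + 1 : Polynomial ℕ).eval x.length = 4 * x.length + 1 := by
      simp
    rw [h5]
    exact h1.trans (h2.trans (h3.trans h4))

open Pool.Agent.LibComplexity in
/-- every recursively enumerable set is polynomial-time many-one reducible to the halting set -/
theorem re_polyRed_halt {A : Set (List Bool)} (hA : REPred fun x => x ∈ A) : PolyRed A Halt := by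
  obtain ⟨k, hk⟩ := KU_complete hA
  refine ⟨fun x => List.replicate k true ++ false :: x, ?_, fun x => ?_⟩
  · exact inFP_of_PTf (A := ∅) (f := fun _ x => List.replicate k true ++ false :: x)
      ((PTf.const (List.replicate k true)).append ((PTf.const false).cons PTf.id))
  · rw [hk, mem_Halt]
    unfold KU
    rw [ones_replicate, drop_replicate]

/-- For some universal machine `U` there is a computable set that is not polynomial-time
truth-table reducible to the set of random strings of `U`; hence nor is the halting set. -/
theorem exists_computable_not_ptt : ∃ U : List Bool →. List Bool, Universal U ∧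
    (∃ A : Set (List Bool), (ComputablePred fun x => x ∈ A) ∧ ¬ PttRed A (RC U)) ∧
    ∀ A : Set (List Bool), Pool.Agent.LibComplexity.PolyRed Halt A → ¬ PttRed A (RC U) := by
  obtain ⟨U, hU, A, hA, h⟩ := main2
  have hnot : ¬ PttRed A (RC U) := by
    intro hred
    obtain ⟨q, g, hq, hg, hqg, P, hP⟩ := ptt_primrec hred
    obtain ⟨C, hC⟩ := h q g hq hg (hqg _)
    obtain ⟨n₀, hn₀⟩ := TaskN.poly_lt (P ^ 8) C
    obtain ⟨x, hx, hx'⟩ := hC n₀
    have h1 := hn₀ x.length hx
    rw [Polynomial.eval_pow] at h1
    have h2 : C * (q x).length ^ 8 ≤ C * (P.eval x.length) ^ 8 :=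
      Nat.mul_le_mul_left _ (Nat.pow_le_pow_left (hP x) 8)
    omega
  refine ⟨U, hU, ⟨A, hA, hnot⟩, fun B hB hred => ?_⟩
  have h1 : PttRed Halt (RC U) := PttRed.of_polyRed hB hred
  exact hnot (PttRed.of_polyRed (re_polyRed_halt hA.to_re) h1)

end Pool.Agent.LibComp86
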